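import Pool.Agent.V8H38.OC.Defs
import Pool.Agent.V8H57.RX.Orc

/-!
# The strategy of the student

The student knows a part of the oracle (`Ov`, right at all strings which are not hidden, that is,
with `Hd q = false`), and the values `κ` at some hidden strings, found by asking. He presents an
optimal one among the solutions he can be sure of, and after a counterexample he asks for the
values at the hidden strings that the algorithms for `C` and for `ρ` ask for on the counterexample.
-/

set_option autoImplicit false

namespace Pool.Agent.V8H38.OC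

open Pool.Agent.NPC Pool.Agent.H620R2.Gauge Pool.Agent.V8H57.CX Pool.Agent.V8H57.RX

/-! ### Tasks -/

/-- a task: algorithms for `C` and for `ρ`, and a number -/
structure Tk : Type where
  /-- the algorithm for `C` -/
  M : Alg
  /-- the algorithm for `ρ` -/
  N : Alg
  /-- a parameter -/
  c : ℕ

/-- the feasible solutions -/
def Tk.C (t : Tk) (A : Oracle) (x z : ℕ) : Prop :=
  t.M.out A (pairBits x.bits z.bits) = some [true]

/-- the values -/
def Tk.rho (t : Tk) (A : Oracle) (z : ℕ) : ℕ := num ((t.N.out A z.bits).getD [])

/-- the questions asked -/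
def Tq (t : Tk) (A : Oracle) (x z : ℕ) : List (List Bool) :=
  asked t.M A (pairBits x.bits z.bits) ++ asked t.N A z.bits

/-- the values found by asking -/
abbrev Kn : Type := List (List Bool × Bool)

/-- the value at `q` is known -/
def kn (Hd : Oracle) (κ : Kn) (q : List Bool) : Bool := !(Hd q) || (κ.lookup q).isSome

/-- the oracle as far as it is known -/
def ov (Ov : Oracle) (κ : Kn) : Oracle := fun q => (κ.lookup q).getD (Ov q)

section
variable (t : Tk) (Ov Hd : Oracle)

/-- the first string asked for on `x, z` whose value is not known -/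
def qn (x : ℕ) (κ : Kn) (z : ℕ) : Option (List Bool) :=
  (Tq t (ov Ov κ) x z).find? (fun q => !(kn Hd κ q))

/-- the student is sure that `z` is a solution -/
def cd (κ : Kn) (x z : ℕ) : Prop := qn t Ov Hd x κ z = none ∧ t.C (ov Ov κ) x z

/-- the states: the values found, the last counterexample, the final result -/
abbrev Sta : Type := Kn × Option ℕ × Option ℕ

/-- the number presented -/
noncomputable def bst (x : ℕ) (κ : Kn) : ℕ := best (cd t Ov Hd κ) (t.rho (ov Ov κ)) x

/-- the next action in a state -/
noncomputable def actS (x : ℕ) (s : Sta) : List Bool :=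
  match s.2.2 with
  | some y => true :: true :: y.bits
  | none =>
    match s.2.1.bind (qn t Ov Hd x s.1) with
    | some q => false :: true :: pairBits q []
    | none => true :: false :: (bst t Ov Hd x s.1).bits

/-- the next state -/
noncomputable def stepS (x : ℕ) (s : Sta) (r : List Bool) : Sta :=
  match s.2.2 with
  | some y => (s.1, s.2.1, some y)
  | none =>
    match s.2.1.bind (qn t Ov Hd x s.1) with
    | some q => ((q, r.headD false) :: s.1, s.2.1, none)
    | none =>
      match r with
      | [] => (s.1, s.2.1, some (bst t Ov Hd x s.1))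
      | _ :: zb => (s.1, some (num zb), none)

/-- the strategy -/
noncomputable def actH (x : ℕ) (h : List (List Bool)) : List Bool :=
  actS t Ov Hd x (h.foldl (stepS t Ov Hd x) ([], none, none))

end

theorem lookup_cons_self (q : List Bool) (b : Bool) (κ : Kn) :
    List.lookup q ((q, b) :: κ) = some b := by
  simp [List.lookup]

theorem lookup_cons_ne {q q' : List Bool} (h : q' ≠ q) (b : Bool) (κ : Kn) :
    List.lookup q' ((q, b) :: κ) = List.lookup q' κ := by
  have h1 : (q' == q) = false := by simpa using h
  simp only [List.lookup, h1]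

/-! ### The questions of an algorithm with a partly known oracle -/

theorem askL_find (M : Alg) (A A' : Oracle) (x : List Bool) (f : List Bool → Bool) :
    ∀ (n : ℕ) (a : List Bool), (∀ q ∈ askL M A x n a, f q = false → A' q = A q) →
      (askL M A' x n a).find? f = (askL M A x n a).find? f := by
  intro n
  induction n with
  | zero => intro a _; rfl
  | succ n ih =>
    intro a h
    rcases hD : M.D (pairBits x a) with _ | ⟨b, q⟩
    · simp only [askL, hD]
    · cases b with
      | true => simp only [askL, hD]
      | false =>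
        simp only [askL, hD] at h ⊢
        cases hf : f q with
        | true => rw [List.find?_cons_of_pos hf, List.find?_cons_of_pos hf]
        | false =>
          have h1 : A' q = A q := h q (by simp) hf
          rw [List.find?_cons_of_neg (by simp [hf]), List.find?_cons_of_neg (by simp [hf]), h1]
          exact ih _ fun q' hq' hf' => h q' (List.mem_cons_of_mem _ hq') hf'

theorem asked_find (M : Alg) (A A' : Oracle) (x : List Bool) (f : List Bool → Bool)
    (h : ∀ q ∈ asked M A x, f q = false → A' q = A q) :
    (asked M A' x).find? f = (asked M A x).find? f :=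
  askL_find M A A' x f _ _ h

section game

variable {t : Tk} {Ov Hd A : Oracle} {x P : ℕ}

/-- the values found are right -/
def TK (A : Oracle) (κ : Kn) : Prop := ∀ q b, κ.lookup q = some b → b = A q

/-- the world of the game -/
structure Gm (t : Tk) (Ov Hd A : Oracle) (x P : ℕ) : Prop where
  vis : ∀ q : List Bool, q.length ≤ P → Hd q = false → Ov q = A q
  short : ∀ z ≤ x, ∀ q ∈ Tq t A x z, q.length ≤ P
  few : ∀ z ≤ x, (Tq t A x z).length ≤ P
  self : x.bits.length ≤ P

theorem ov_eq (hG : Gm t Ov Hd A x P) {κ : Kn} (hκ : TK A κ) {q : List Bool} (hq : q.length ≤ P)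
    (h : kn Hd κ q = true) : ov Ov κ q = A q := by
  unfold ov
  rcases hl : κ.lookup q with _ | b
  · unfold kn at h
    rw [hl] at h
    simp only [Option.isSome_none, Bool.or_false, Bool.not_eq_true'] at h
    simp only [Option.getD_none]
    exact hG.vis q hq h
  · simp only [Option.getD_some]
    exact hκ q b hl

theorem qn_eq (hG : Gm t Ov Hd A x P) {κ : Kn} (hκ : TK A κ) {z : ℕ} (hz : z ≤ x) :
    qn t Ov Hd x κ z = (Tq t A x z).find? (fun q => !(kn Hd κ q)) := by
  unfold qn Tq
  rw [List.find?_append, List.find?_append]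
  have h1 : ∀ q ∈ asked t.M A (pairBits x.bits z.bits), (!(kn Hd κ q)) = false →
      ov Ov κ q = A q := fun q hq hf =>
    ov_eq hG hκ (hG.short z hz q (List.mem_append_left _ hq)) (by simpa using hf)
  have h2 : ∀ q ∈ asked t.N A z.bits, (!(kn Hd κ q)) = false →
      ov Ov κ q = A q := fun q hq hf =>
    ov_eq hG hκ (hG.short z hz q (List.mem_append_right _ hq)) (by simpa using hf)
  rw [asked_find t.M A (ov Ov κ) _ _ h1, asked_find t.N A (ov Ov κ) _ _ h2]

theorem C_eq {A' : Oracle} {z : ℕ} (h : ∀ q ∈ Tq t A x z, A' q = A q) :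
    t.C A' x z ↔ t.C A x z := by
  unfold Tk.C
  rw [asked_congr t.M A A' (pairBits x.bits z.bits)
    fun q hq => h q (List.mem_append_left _ hq)]

theorem rho_eq {A' : Oracle} {z : ℕ} (h : ∀ q ∈ Tq t A x z, A' q = A q) :
    t.rho A' z = t.rho A z := by
  unfold Tk.rho
  rw [asked_congr t.N A A' z.bits fun q hq => h q (List.mem_append_right _ hq)]

theorem known_eq (hG : Gm t Ov Hd A x P) {κ : Kn} (hκ : TK A κ) {z : ℕ} (hz : z ≤ x)
    (h : ∀ q ∈ Tq t A x z, kn Hd κ q = true) : ∀ q ∈ Tq t A x z, ov Ov κ q = A q :=
  fun q hq => ov_eq hG hκ (hG.short z hz q hq) (h q hq)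

theorem cd_iff (hG : Gm t Ov Hd A x P) {κ : Kn} (hκ : TK A κ) {z : ℕ} (hz : z ≤ x) :
    cd t Ov Hd κ x z ↔ (∀ q ∈ Tq t A x z, kn Hd κ q = true) ∧ t.C A x z := by
  unfold cd
  rw [qn_eq hG hκ hz, List.find?_eq_none]
  constructor
  · rintro ⟨h1, h2⟩
    have h3 : ∀ q ∈ Tq t A x z, kn Hd κ q = true := fun q hq => by simpa using h1 q hq
    exact ⟨h3, (C_eq (known_eq hG hκ hz h3)).1 h2⟩
  · rintro ⟨h1, h2⟩
    exact ⟨fun q hq => by simp [h1 q hq], (C_eq (known_eq hG hκ hz h1)).2 h2⟩

end game

end Pool.Agent.V8H38.OC
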