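import Pool.Agent.V8H38.OC.World
import Pool.Agent.H591R3.PHG.Proj
import Pool.Agent.H620R2.GaugeR.R8

/-!
# The random world
-/

set_option autoImplicit false

namespace Pool.Agent.V8H38.OC

open Finset H568R2 Pool.Agent.H676 Pool.Agent.NPC Pool.Agent.H620R2.Gauge Pool.Agent.V8H57.CX
  Pool.Agent.V8H57.RX Pool.Agent.H591R3 Pool.Agent.H591R3.PHG MeasureTheory

/-! ### Redrawing coins -/

theorem idx_lt_pow {q : List Bool} {L : ℕ} (h : q.length ≤ L) : idx q < 2 ^ (L + 1) := by
  have h1 := idx_lt q
  have h2 : 2 ^ (q.length + 1) ≤ 2 ^ (L + 1) := Nat.pow_le_pow_right (by norm_num) (by omega)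
  omega

theorem idx_inj {q q' : List Bool} (h : idx q = idx q') : q = q' := by
  rw [← str_idx q, h, str_idx]

open Classical in
/-- The coins of a finite set of strings may be drawn again. -/
theorem resample {J : Type} [Fintype J] [DecidableEq J] (E : Oracle → Prop) (L : ℕ)
    (hE : ∀ O O' : Oracle, (∀ q : List Bool, q.length ≤ L → O q = O' q) → E O → E O')
    (pos : J → List Bool) (hpos : Function.Injective pos) (hL : ∀ j, (pos j).length ≤ L) (ε : ℝ)
    (h : ∀ O : Oracle, Ex (ber (1 / 2)) (fun z : J → Bool =>
      if E (Proj.owr pos O z) then (1 : ℝ) else 0) ≤ ε) :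
    ranO {O | E O} ≤ ENNReal.ofReal ε := by
  set N := 2 ^ (L + 1) with hN
  set e : J → Fin N := fun j => ⟨idx (pos j), idx_lt_pow (hL j)⟩ with he
  have heinj : Function.Injective e := by
    intro j j' hj
    apply hpos
    apply idx_inj
    exact congrArg Fin.val hj
  have hsub : {O : Oracle | E O} ⊆ {O : Oracle | E (orc N (fun i : Fin N => O (str i)))} := by
    intro O hO
    refine hE O _ ?_ hO
    intro q hq
    exact (orc_pre (idx_lt_pow hq)).symm
  refine (measure_mono hsub).trans ?_
  refine (ranO_cyl_le (fun i : Fin N => str i) (fun i j h => Fin.ext (str_injective h))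
    (fun a => E (orc N a))).trans ?_
  apply ENNReal.ofReal_le_ofReal
  suffices hkey : Ex unif (fun a : Fin N → Bool => if E (orc N a) then (1 : ℝ) else 0) ≤ ε by
    refine le_trans (le_of_eq ?_) hkey
    congr
  rw [Ex_overwrite e heinj]
  have hu0 : ∀ b, 0 ≤ unif b := fun b => by unfold unif; norm_num
  have hu1 : ∑ b, unif b = 1 := by unfold unif; simp
  refine (Ex_mono hu0 (G := fun _ => ε) fun a => ?_).trans (Ex_const hu1 _).le
  refine le_trans (le_of_eq ?_) (h (orc N a))
  congr 1
  funext z
  have hag : ∀ q : List Bool, q.length ≤ L →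
      orc N (fun i => if h : ∃ j, e j = i then z h.choose else a i) q =
        Proj.owr pos (orc N a) z q := by
    intro q hq
    have hidx := idx_lt_pow hq
    have h1 : orc N (fun i => if h : ∃ j, e j = i then z h.choose else a i) q =
        if h : ∃ j, e j = ⟨idx q, hidx⟩ then z h.choose else a ⟨idx q, hidx⟩ := by
      unfold H620R2.Gauge.orc
      rw [dif_pos hidx]
    rw [h1]
    by_cases hj : ∃ j, pos j = q
    · obtain ⟨j, rfl⟩ := hj
      rw [Proj.owr_e hpos]
      have h2 : ∃ j', e j' = ⟨idx (pos j), hidx⟩ := ⟨j, rfl⟩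
      rw [dif_pos h2]
      congr 1
      apply heinj
      exact h2.choose_spec
    · rw [Proj.owr_off _ _ hj, dif_neg]
      · unfold H620R2.Gauge.orc
        rw [dif_pos hidx]
      · rintro ⟨j, hj2⟩
        exact hj ⟨j, idx_inj (congrArg Fin.val hj2)⟩
  have hiff : E (orc N (fun i => if h : ∃ j, e j = i then z h.choose else a i)) ↔
      E (Proj.owr pos (orc N a) z) :=
    ⟨hE _ _ hag, hE _ _ (fun q hq => (hag q hq).symm)⟩
  exact if_congr hiff rfl rfl

/-! ### The world given by the coins -/

/-- the coins for the planted strings -/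
def yc (a : List Bool) (j : ℕ) : List Bool := false :: pairBits a (List.replicate j true)

/-- the coins for the hidden strings -/
def hc (v : List Bool) (j : ℕ) : List Bool := true :: pairBits v (List.replicate j true)

theorem pairBits_inj {a b a' b' : List Bool} (h : pairBits a b = pairBits a' b') :
    a = a' ∧ b = b' := by
  have := congrArg unpair h
  rw [unpair_pairBits, unpair_pairBits] at this
  exact Prod.ext_iff.1 this

theorem hc_inj {v v' : List Bool} {j j' : ℕ} (h : hc v j = hc v' j') : v = v' ∧ j = j' := by
  unfold hc at h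
  obtain ⟨h1, h2⟩ := pairBits_inj (List.cons.inj h).2
  refine ⟨h1, ?_⟩
  have := congrArg List.length h2
  simpa using this

theorem yc_inj {v v' : List Bool} {j j' : ℕ} (h : yc v j = yc v' j') : v = v' ∧ j = j' := by
  unfold yc at h
  obtain ⟨h1, h2⟩ := pairBits_inj (List.cons.inj h).2
  refine ⟨h1, ?_⟩
  have := congrArg List.length h2
  simpa using this

theorem yc_ne_hc (a v : List Bool) (j j' : ℕ) : yc a j ≠ hc v j' := by
  unfold yc hc
  simp

theorem length_hc (v : List Bool) (j : ℕ) : (hc v j).length = 2 * v.length + j + 2 := by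
  unfold hc
  rw [List.length_cons, length_pairBits, List.length_replicate]
  ring

theorem length_yc (v : List Bool) (j : ℕ) : (yc v j).length = 2 * v.length + j + 2 := by
  unfold yc
  rw [List.length_cons, length_pairBits, List.length_replicate]
  ring

/-- the string stands for nothing -/
def emp (s : List Bool) : Bool := (s.take (64 * Nat.sqrt s.length)).all id

/-- the drawn string for the node `a` -/
def ys (O : Oracle) (a : List Bool) : List Bool :=
  (List.range (a.length / 7)).map (fun j => O (yc a j))

/-- the position `v` is planted -/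
def plant (Y : List Bool → List Bool) (v : List Bool) : Bool :=
  decide (8 ∣ v.length) && (decide (v.drop (7 * (v.length / 8)) =
    Y (v.take (7 * (v.length / 8)))) && !(emp (v.drop (7 * (v.length / 8)))))

/-- the world given by the coins -/
def wld (O : Oracle) : World where
  pos := fun v => !(plant (ys O) v)
  hid := fun ℓ v => decide (∀ j < Nat.size ℓ, O (hc v j) = true)

/-- the random oracle -/
noncomputable def AO (O : Oracle) : Oracle := orW (wld O)

theorem hid_mono {O : Oracle} {ℓ ℓ' : ℕ} (h : ℓ ≤ ℓ') {q : List Bool}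
    (hq : (wld O).hid ℓ' q = true) : (wld O).hid ℓ q = true := by
  simp only [wld, decide_eq_true_eq] at hq ⊢
  exact fun j hj => hq j (hj.trans_le (Nat.size_le_size h))

theorem KO_congr {O O' : Oracle} {L : ℕ}
    (hh : ∀ v : List Bool, v.length ≤ L → ∀ j < Nat.size L, O (hc v j) = O' (hc v j))
    (hy : ∀ q : List Bool, q.length ≤ L → (wld O).hid L q = false →
      (wld O).pos q = (wld O').pos q) :
    ∀ w : List Bool, w.length ≤ L → KW (wld O) w = KW (wld O') w := by
  refine KW_congr ?_ (fun ℓ hℓ q hq => hid_mono hℓ hq) hy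
  intro ℓ hℓ q hq
  simp only [wld]
  apply decide_eq_decide.2
  have h1 := Nat.size_le_size hℓ
  exact forall_congr' fun j => forall_congr' fun hj => by rw [hh q hq j (by omega)]

theorem ys_congr {O O' : Oracle} {a : List Bool}
    (h : ∀ j < a.length / 7, O (yc a j) = O' (yc a j)) : ys O a = ys O' a := by
  unfold ys
  apply List.map_congr_left
  intro j hj
  exact h j (List.mem_range.1 hj)

theorem plant_congr {Y Y' : List Bool → List Bool} {v : List Bool}
    (h : Y (v.take (7 * (v.length / 8))) = Y' (v.take (7 * (v.length / 8)))) :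
    plant Y v = plant Y' v := by
  unfold plant
  rw [h]

theorem pos_congr {O O' : Oracle} {L : ℕ}
    (h : ∀ a : List Bool, a.length ≤ L → ∀ j < L, O (yc a j) = O' (yc a j)) {q : List Bool}
    (hq : q.length ≤ L) : (wld O).pos q = (wld O').pos q := by
  simp only [wld]
  congr 1
  apply plant_congr
  apply ys_congr
  intro j hj
  have h1 : (q.take (7 * (q.length / 8))).length ≤ q.length := List.length_take_le' _ _
  exact h _ (h1.trans hq) j (by omega)

theorem AO_congr' {O O' : Oracle} {L : ℕ} (hK : ∀ w : List Bool, w.length ≤ L →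
    KW (wld O) w = KW (wld O') w) {q : List Bool} (hq : q.length ≤ L)
    (hp : (wld O).pos q = (wld O').pos q) : AO O q = AO O' q := by
  unfold AO orW
  rcases q with _ | ⟨b, v⟩
  · simp only [full]
  · cases b with
    | false =>
      rw [List.length_cons] at hq
      simp only [full]
      exact hK v (by omega)
    | true =>
      simp only [full]
      exact hp

theorem size_le_self (n : ℕ) : Nat.size n ≤ n := by
  rw [Nat.size_le]
  exact Nat.lt_two_pow_self

theorem AO_loc {O O' : Oracle} {L : ℕ} (h : ∀ q : List Bool, q.length ≤ 3 * L + 2 → O q = O' q)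
    {q : List Bool} (hq : q.length ≤ L) : AO O q = AO O' q := by
  have h1 : ∀ q : List Bool, q.length ≤ L → (wld O).pos q = (wld O').pos q := by
    intro q hq
    exact pos_congr (L := L) (fun a ha j hj => h _ (by rw [length_yc]; omega)) hq
  refine AO_congr' (KO_congr ?_ fun q hq _ => h1 q hq) hq (h1 q hq)
  intro v hv j hj
  apply h
  rw [length_hc]
  have := size_le_self L
  omega

/-- The oracle at the strings of length at most `L` does not depend on the coins with large
numbers. -/
theorem AO_low {O O' : Oracle} {L : ℕ}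
    (hy : ∀ (a : List Bool) (j : ℕ), O (yc a j) = O' (yc a j))
    (hh : ∀ (v : List Bool), ∀ j < Nat.size L, O (hc v j) = O' (hc v j)) {q : List Bool}
    (hq : q.length ≤ L) : AO O q = AO O' q := by
  have h1 : ∀ q : List Bool, q.length ≤ L → (wld O).pos q = (wld O').pos q := by
    intro q hq
    exact pos_congr (L := L) (fun a _ j _ => hy a j) hq
  exact AO_congr' (KO_congr (fun v _ j hj => hh v j hj) fun q hq _ => h1 q hq) hq (h1 q hq)

end Pool.Agent.V8H38.OC
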