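import Pool.Agent.V8H57.RX.Defs

/-!
# Optimization problems with an objective function computable relative to the oracle
-/

set_option autoImplicit false

namespace Pool.Agent.V8H38.OC

open Pool.Agent.NPC Pool.Agent.H620R2.Gauge Pool.Agent.V8H57.CX

/-- `(C, ρ)` is an optimization problem with `C` in `Π_i` relative to `A`, where `ρ` is computable
in polynomial time relative to `A`. -/
structure IsOptProblemA (A : Oracle) (i : ℕ) (C : ℕ → ℕ → Prop) (ρ : ℕ → ℕ) : Prop where
  pi : InPi A i C
  zero : ∀ x, C x 0
  le : ∀ x y, C x y → y ≤ x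
  rho : ∃ F : List Bool → List Bool, IsFP A F ∧ ∀ y, F y.bits = (ρ y).bits

end Pool.Agent.V8H38.OC
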