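import Pool.Agent.V8H38.OC.Low
import Pool.Agent.V8H57.CX.All

/-!
# The hard inputs
-/

set_option autoImplicit false

namespace Pool.Agent.V8H38.OC

open Finset H568R2 Pool.Agent.H676 Pool.Agent.NPC Pool.Agent.H620R2.Gauge Pool.Agent.V8H57.CX
  Pool.Agent.H591R3 Pool.Agent.H591R3.PHG MeasureTheory Filter

section fam

variable (r k : ℕ) (as : List ℕ)

/-- the length of the free part of the inputs -/
def Zl : ℕ := 5 * r ^ 2 - 3 * as.sum - k - 5

/-- the inputs -/
def inp (j : Fin (4 * r)) : List Bool := enc (r ^ 2 :: as) 1 (bitsOf (Zl r k as) j)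

/-- the addresses of the nodes -/
def adr (g : Idx (Fin (4 * r)) (pw as)) : List Bool := addr (inp r k as) as g

variable {r k as}

theorem inp_len (hk : as.length = k + 1) (hS : 3 * as.sum + k + 5 ≤ 5 * r ^ 2)
    (j : Fin (4 * r)) : (inp r k as j).length = 7 * r ^ 2 - as.sum := by
  unfold inp
  rw [enc_len, length_bitsOf, List.sum_cons, List.length_cons, hk]
  unfold Zl
  omega

theorem inp_inj (hZ : 4 * r ≤ 2 ^ Zl r k as) : Function.Injective (inp r k as) := by
  intro j j' h
  have h1 := enc_inj _ _ h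
  have h2 := bitsOf_inj (j.isLt.trans_le hZ) (j'.isLt.trans_le hZ) h1
  exact Fin.ext h2

theorem adr_len (hk : as.length = k + 1) (hS : 3 * as.sum + k + 5 ≤ 5 * r ^ 2)
    (g : Idx (Fin (4 * r)) (pw as)) : (adr r k as g).length = 7 * r ^ 2 := by
  unfold adr
  rw [LangTrAux.length_addr (inp r k as) _ (inp_len hk hS) as g]
  omega

theorem adr_inj (hk : as.length = k + 1) (hS : 3 * as.sum + k + 5 ≤ 5 * r ^ 2)
    (hZ : 4 * r ≤ 2 ^ Zl r k as) : Function.Injective (adr r k as) :=
  LangTrAux.addr_inj (inp r k as) (inp_inj hZ) _ (inp_len hk hS) as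

theorem enc_head : ∀ (as : List ℕ), as ≠ [] → (∀ a ∈ as, 1 ≤ a) → ∀ (w : ℕ) (z : List Bool),
    ∃ v, enc as w z = true :: v := by
  intro as
  induction as using List.reverseRecOn with
  | nil => intro h; exact absurd rfl h
  | append_singleton as a _ =>
    intro _ ha w z
    rw [LangTrAux.enc_append]
    have h1 : 1 ≤ a := ha a (by simp)
    obtain ⟨a', rfl⟩ : ∃ a', a = a' + 1 := ⟨a - 1, by omega⟩
    refine ⟨true :: pairBits (List.replicate a' true) (enc as w z), ?_⟩
    rw [List.replicate_succ]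
    rfl

theorem addr_head {X : Type} (xs : X → List Bool) (hxs : ∀ j, ∃ v, xs j = true :: v) :
    ∀ (as : List ℕ) (g : Idx X (pw as)), ∃ v, addr xs as g = true :: v := by
  intro as
  induction as with
  | nil => intro g; exact hxs g
  | cons a as ih =>
    have key : ∀ (g1 : Idx X (pw as)) (i : Fin (2 ^ a)),
        ∃ v, addr xs as g1 ++ bitsOf a i.val = true :: v := by
      intro g1 i
      obtain ⟨v, hv⟩ := ih g1
      exact ⟨v ++ bitsOf a i.val, by rw [hv]; rfl⟩
    intro g
    exact key g.1 g.2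

theorem adr_head (hr : 1 ≤ r) (ha : ∀ a ∈ as, 1 ≤ a) (g : Idx (Fin (4 * r)) (pw as)) :
    ∃ v, adr r k as g = true :: v := by
  apply addr_head
  intro j
  apply enc_head _ (by simp)
  intro a h
  rcases List.mem_cons.1 h with rfl | h
  · nlinarith
  · exact ha a h

theorem Tr_leaves {X : Type} (xs : X → List Bool) (m : ℕ) (A : Oracle) (j : X) :
    Tr (1 :: pw (m :: as)) (leaves xs (m :: as) 1 A) j =
      Tr (pw as) (fun g => decide (∀ i < 2 ^ m, A (addr xs as g ++ bitsOf m i) = true)) j := by
  show Tr (pw as) (fun g : Idx X (pw as) => decide (∀ i' : Fin (2 ^ m),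
    decide (∀ i : Fin 1, A ((addr xs as g ++ bitsOf m i'.val) ++ List.replicate i.val true) =
      false) = false)) j = _
  congr 1
  funext g
  apply decide_eq_decide.2
  have h1 : ∀ i' : ℕ, decide (∀ i : Fin 1, A ((addr xs as g ++ bitsOf m i') ++
      List.replicate i.val true) = false) = !(A (addr xs as g ++ bitsOf m i')) := by
    intro i'
    have h2 : (∀ i : Fin 1, A ((addr xs as g ++ bitsOf m i') ++
        List.replicate i.val true) = false) ↔ A (addr xs as g ++ bitsOf m i') = false := by
      constructor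
      · intro h
        have := h 0
        simpa using this
      · intro h i
        have : i = 0 := Subsingleton.elim _ _
        subst this
        simpa using h
    rw [decide_eq_decide.2 h2]
    have h3 : ∀ b : Bool, decide (b = false) = !b := by decide
    exact h3 _
  simp only [h1]
  constructor
  · intro h i hi
    have := h ⟨i, hi⟩
    simpa using this
  · intro h i
    have := h i.val i.isLt
    simpa using this

/-- the inputs and the hard language -/
theorem inp_mem (hk : as.length = k + 1) (O : Oracle) (j : Fin (4 * r)) :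
    inp r k as j ∈ lang (k + 1) (AO O) ↔ Tr (pw as) (nv r (adr r k as) O) j = false := by
  have h1 := mem_lang_iff (AO O) (k + 1) (r ^ 2 :: as) (by simp [hk]) 1
    (fun j : Fin (4 * r) => bitsOf (Zl r k as) j) j
  rw [Tr_leaves] at h1
  exact h1

end fam

/-- The computation `M'` with `k` quantifiers decides the hard language. -/
def BadL (k : ℕ) (M' : Alg) (p : Polynomial ℕ) : Set Oracle :=
  {O | ∃ V : List Bool → List Bool, (∀ y, M'.out (AO O) y = some (V y)) ∧
    ∀ x, x ∈ lang (k + 1) (AO O) ↔ Quant (p.eval x.length) V k true x}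

theorem bad_ev {r k : ℕ} {as : List ℕ} (hk : as.length = k + 1)
    (hS : 3 * as.sum + k + 5 ≤ 5 * r ^ 2) {M' : Alg} {p qb : Polynomial ℕ}
    (hqb : ∀ (A : Oracle) (x : List Bool), ∃ Q : Finset (List Bool), Q.card ≤ M'.p.eval x.length ∧
      (∀ q ∈ Q, q.length ≤ qb.eval x.length) ∧
      ∀ A' : Oracle, (∀ q ∈ Q, A' q = A q) → M'.out A' x = M'.out A x)
    {O : Oracle} (hO : O ∈ BadL k M' p) :
    Ev r (adr r k as) M' (2 ^ (qb.eval (7 * r ^ 2 - as.sum +
      k * (2 * p.eval (7 * r ^ 2 - as.sum) + 1)) + 1) - 1) (p.eval (7 * r ^ 2 - as.sum)) k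
      (inp r k as) O := by
  obtain ⟨V, hV, hL⟩ := hO
  set ℓ := 7 * r ^ 2 - as.sum with hℓ
  set R := ℓ + k * (2 * p.eval ℓ + 1) with hR
  set N := 2 ^ (qb.eval R + 1) - 1 with hN
  intro j
  have h1 : ∀ y : List Bool, y.length ≤ R →
      (V y = [true] ↔ leaf M' N y (pre N (AO O)) = true) := by
    intro y hy
    unfold leaf
    rw [decide_eq_true_eq]
    obtain ⟨Q, _, hQ2, hQ3⟩ := hqb (AO O) y
    have h2 : M'.out (H620R2.Gauge.orc N (pre N (AO O))) y = M'.out (AO O) y := by
      apply hQ3
      intro q hq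
      apply orc_pre
      apply idx_lt'
      exact (hQ2 q hq).trans (eval_mono _ hy)
    rw [h2, hV y, Option.some.injEq]
  have hlen := inp_len hk hS j
  have h2 := H620R2.Gauge.quant_iff (N := N) (m := p.eval ℓ) (A := AO O) (M := M') (V := V) R h1 k
    true (inp r k as j) (by rw [hlen])
  have h3 := hL (inp r k as j)
  rw [hlen, ← hℓ, h2, inp_mem hk] at h3
  intro hcon
  rw [← hcon] at h3
  cases hb : QF (p.eval ℓ) (leaf M' N) k true (inp r k as j) (pre N (AO O)) with
  | true => rw [hb] at h3; exact absurd (h3.2 rfl) (by simp)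
  | false => rw [hb] at h3; exact absurd (h3.1 rfl) (by simp)

end Pool.Agent.V8H38.OC
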