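import Pool.Agent.V8H38.OC.Act

/-!
# The game

The number of counterexamples is bounded by the length of the paths of hidden strings, where the
next string of a path is one of the strings asked for on the best solution which avoids the former
strings of the path.
-/

set_option autoImplicit false

namespace Pool.Agent.V8H38.OC

open Pool.Agent.NPC Pool.Agent.H620R2.Gauge Pool.Agent.V8H57.CX Pool.Agent.V8H57.RX

/-- the sequences of counterexamples, the newest first, each with the set of hidden strings known
before it -/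
def Play (T : ℕ → List (List Bool)) (H : List Bool → Prop) (C : ℕ → Prop) (ρ : ℕ → ℕ) (x : ℕ) :
    List (ℕ × (List Bool → Prop)) → Prop
  | [] => True
  | (z, D) :: l => Play T H C ρ x l ∧ z ≤ x ∧ C z ∧
      (∀ z' ≤ x, C z' → (∀ q ∈ T z', H q → D q) → ρ z' < ρ z) ∧
      ∀ p ∈ l, ∀ q ∈ T p.1, H q → D q

/-- the best solution avoiding the strings in `V` -/
noncomputable def mV (T : ℕ → List (List Bool)) (C : ℕ → Prop) (ρ : ℕ → ℕ) (x : ℕ)
    (V : List (List Bool)) : ℕ :=
  best (fun _ z => C z ∧ ∀ q ∈ T z, q ∉ V) ρ x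

/-- there is a path of `k` further hidden strings -/
def Ext (H : List Bool → Prop) (nx : List (List Bool) → List (List Bool)) :
    ℕ → List (List Bool) → Prop
  | 0, _ => True
  | k + 1, V => ∃ v ∈ nx V, H v ∧ v ∉ V ∧ Ext H nx k (v :: V)

theorem play_ext {T : ℕ → List (List Bool)} {H : List Bool → Prop} {C : ℕ → Prop} {ρ : ℕ → ℕ}
    {x : ℕ} : ∀ (l : List (ℕ × (List Bool → Prop))) (V : List (List Bool)),
    Play T H C ρ x l → (∀ p ∈ l, ∀ q ∈ T p.1, q ∉ V) →
      Ext H (fun V => T (mV T C ρ x V)) l.length V := by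
  intro l
  induction l with
  | nil => intro V _ _; trivial
  | cons p l ih =>
    obtain ⟨z, D⟩ := p
    rintro V ⟨h1, h2, h3, h4, h5⟩ hV
    have hz : ∀ q ∈ T z, q ∉ V := hV (z, D) (by simp)
    obtain ⟨b1, b2, b3⟩ := best_spec (C := fun _ z => C z ∧ ∀ q ∈ T z, q ∉ V) (ρ := ρ) (x := x)
      ⟨z, h2, h3, hz⟩
    have hle : ρ z ≤ ρ (mV T C ρ x V) := b3 z h2 ⟨h3, hz⟩
    have hex : ∃ v ∈ T (mV T C ρ x V), H v ∧ ¬ D v := by
      by_contra hcon
      push Not at hcon
      have := h4 _ b1 b2.1 hcon
      exact absurd this (by unfold mV at hle; omega)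
    obtain ⟨v, hv1, hv2, hv3⟩ := hex
    refine ⟨v, hv1, hv2, b2.2 v hv1, ih (v :: V) h1 ?_⟩
    intro p hp q hq hmem
    rcases List.mem_cons.1 hmem with rfl | hmem
    · exact hv3 (h5 p hp _ hq hv2)
    · exact hV p (List.mem_cons_of_mem _ hp) q hq hmem

section win

variable {t : Tk} {Ov Hd A : Oracle} {x P N : ℕ} {S : Set (List Bool)}

theorem win_mono {C : ℕ → ℕ → Prop} {ρ : ℕ → ℕ} {act : List (List Bool) → List Bool} :
    ∀ (k c : ℕ) (h : List (List Bool)), Win S x C ρ act N k c h → Win S x C ρ act N (k + 1) c h := by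
  intro k
  induction k with
  | zero => intro c h hw; exact hw.elim
  | succ k ih =>
    intro c h hw
    obtain ⟨hlen, hw⟩ := hw
    refine ⟨hlen, ?_⟩
    rcases hw with ⟨v, ha, hw⟩ | ⟨w, c', ha, hc, hw⟩ | ⟨w, ha, hw⟩
    · exact Or.inl ⟨v, ha, ih _ _ hw⟩
    · exact Or.inr (Or.inl ⟨w, c', ha, hc, fun o ho => ih _ _ (hw o ho)⟩)
    · exact Or.inr (Or.inr ⟨w, ha, hw⟩)

theorem win_mono' {C : ℕ → ℕ → Prop} {ρ : ℕ → ℕ} {act : List (List Bool) → List Bool}
    {k k' c : ℕ} {h : List (List Bool)} (hk : k ≤ k') (hw : Win S x C ρ act N k c h) :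
    Win S x C ρ act N k' c h := by
  induction hk with
  | refl => exact hw
  | step _ ih => exact win_mono _ _ _ ih

/-- the state after the answers `h` -/
noncomputable def stH (t : Tk) (Ov Hd : Oracle) (x : ℕ) (h : List (List Bool)) : Sta :=
  h.foldl (stepS t Ov Hd x) ([], none, none)

theorem stH_append (h : List (List Bool)) (r : List Bool) :
    stH t Ov Hd x (h ++ [r]) = stepS t Ov Hd x (stH t Ov Hd x h) r := by
  unfold stH
  rw [List.foldl_append]
  rfl

theorem actH_eq (h : List (List Bool)) : actH t Ov Hd x h = actS t Ov Hd x (stH t Ov Hd x h) := rfl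

/-- the strings asked for with unknown value -/
noncomputable def unk (t : Tk) (Hd A : Oracle) (x : ℕ) (κ : Kn) (z : ℕ) : Finset (List Bool) :=
  (Tq t A x z).toFinset.filter (fun q => kn Hd κ q = false)

theorem unk_card (hG : Gm t Ov Hd A x P) (κ : Kn) {z : ℕ} (hz : z ≤ x) :
    (unk t Hd A x κ z).card ≤ P := by
  unfold unk
  refine (Finset.card_filter_le _ _).trans ?_
  exact (List.toFinset_card_le _).trans (hG.few z hz)

theorem unk_lt {κ : Kn} {z : ℕ} {q : List Bool} (hq : q ∈ Tq t A x z) (hk : kn Hd κ q = false)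
    (b : Bool) : (unk t Hd A x ((q, b) :: κ) z).card < (unk t Hd A x κ z).card := by
  apply Finset.card_lt_card
  rw [Finset.ssubset_iff_of_subset]
  · refine ⟨q, ?_, ?_⟩
    · unfold unk
      rw [Finset.mem_filter, List.mem_toFinset]
      exact ⟨hq, hk⟩
    · unfold unk
      rw [Finset.mem_filter]
      rintro ⟨-, h⟩
      unfold kn at h
      rw [lookup_cons_self] at h
      simp at h
  · intro q' h
    unfold unk at h ⊢
    rw [Finset.mem_filter] at h ⊢
    refine ⟨h.1, ?_⟩
    have h2 := h.2
    unfold kn at h2 ⊢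
    by_cases hqq : q' = q
    · subst hqq
      rw [lookup_cons_self] at h2
      simp at h2
    · rw [lookup_cons_ne hqq] at h2
      exact h2

theorem TK_cons {κ : Kn} (h : TK A κ) (q : List Bool) : TK A ((q, A q) :: κ) := by
  intro q' b hb
  by_cases hqq : q' = q
  · subst hqq
    rw [lookup_cons_self] at hb
    exact (Option.some.inj hb).symm
  · rw [lookup_cons_ne hqq] at hb
    exact h q' b hb

/-- known -/
def Dom (κ : Kn) (q : List Bool) : Prop := (κ.lookup q).isSome = true

theorem Dom_cons {κ : Kn} {q' : List Bool} (h : Dom κ q') (q : List Bool) (b : Bool) :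
    Dom ((q, b) :: κ) q' := by
  unfold Dom at h ⊢
  by_cases hqq : q' = q
  · subst hqq
    rw [lookup_cons_self]
    rfl
  · rw [lookup_cons_ne hqq]
    exact h

theorem kn_iff {κ : Kn} {q : List Bool} : kn Hd κ q = true ↔ (Hd q = true → Dom κ q) := by
  unfold kn Dom
  cases Hd q <;> simp

theorem find_mem {l : List (List Bool)} {f : List Bool → Bool} {q : List Bool}
    (h : l.find? f = some q) : q ∈ l ∧ f q = true :=
  ⟨List.mem_of_find?_eq_some h, List.find?_some h⟩

/-- a set of hidden strings as in a play -/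
abbrev PlayT (t : Tk) (Hd A : Oracle) (x : ℕ) (l : List (ℕ × (List Bool → Prop))) : Prop :=
  Play (Tq t A x) (fun q => Hd q = true) (t.C A x) (t.rho A) x l

open Classical in
theorem win_main (hG : Gm t Ov Hd A x P) (hN : 2 * P + 3 ≤ N)
    (hS : ∀ q : List Bool, (true :: pad (N - 2) (pairBits q []) ∈ S) ↔ A q = true)
    (h0 : t.C A x 0) {k : ℕ}
    (hk : ¬ Ext (fun q => Hd q = true)
      (fun V => Tq t A x (mV (Tq t A x) (t.C A x) (t.rho A) x V)) k []) :
    ∀ (r : ℕ) (h : List (List Bool)) (κ : Kn) (c : Option ℕ) (l : List (ℕ × (List Bool → Prop))),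
      stH t Ov Hd x h = (κ, c, none) → TK A κ → c.bind (qn t Ov Hd x κ) = none →
      PlayT t Hd A x l → (∀ p ∈ l, ∀ q ∈ Tq t A x p.1, Hd q = true → Dom κ q) →
      l.length + r = k → Win S x (t.C A) (t.rho A) (actH t Ov Hd x) N (r * (P + 1) + 1) r h := by
  intro r
  induction r with
  | zero =>
    intro h κ c l _ _ _ hl _ hlen
    exfalso
    apply hk
    rw [← hlen, Nat.add_zero]
    exact play_ext l [] hl (by simp)
  | succ r ih =>
    intro h κ c l hst hκ hc hl hdom hlen
    -- learning
    have learn : ∀ (μ : ℕ) (h : List (List Bool)) (κ : Kn) (z : ℕ) (D : List Bool → Prop),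
        stH t Ov Hd x h = (κ, some z, none) → TK A κ → (unk t Hd A x κ z).card ≤ μ → z ≤ x →
        PlayT t Hd A x ((z, D) :: l) → (∀ p ∈ l, ∀ q ∈ Tq t A x p.1, Hd q = true → Dom κ q) →
        Win S x (t.C A) (t.rho A) (actH t Ov Hd x) N (μ + (r * (P + 1) + 1)) r h := by
      intro μ
      induction μ with
      | zero =>
        intro h κ z D hst hκ hμ hz hpl hdom
        have hall : ∀ q ∈ Tq t A x z, kn Hd κ q = true := by
          intro q hq
          by_contra hcon
          have : q ∈ unk t Hd A x κ z := by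
            unfold unk
            rw [Finset.mem_filter, List.mem_toFinset]
            exact ⟨hq, by simpa using hcon⟩
          have := Finset.card_pos.2 ⟨q, this⟩
          omega
        have hnone : qn t Ov Hd x κ z = none := by
          rw [qn_eq hG hκ hz, List.find?_eq_none]
          intro q hq
          simp [hall q hq]
        rw [Nat.zero_add]
        refine ih h κ (some z) ((z, D) :: l) hst hκ hnone hpl ?_ (by
          rw [List.length_cons]; omega)
        intro p hp q hq hH
        rcases List.mem_cons.1 hp with rfl | hp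
        · exact kn_iff.1 (hall q hq) hH
        · exact hdom p hp q hq hH
      | succ μ ihμ =>
        intro h κ z D hst hκ hμ hz hpl hdom
        rcases hq : qn t Ov Hd x κ z with _ | q
        · refine win_mono' (k := r * (P + 1) + 1) (by omega) ?_
          have hall : ∀ q ∈ Tq t A x z, kn Hd κ q = true := by
            rw [qn_eq hG hκ hz, List.find?_eq_none] at hq
            intro q' hq'
            simpa using hq q' hq'
          refine ih h κ (some z) ((z, D) :: l) hst hκ hq hpl ?_ (by
            rw [List.length_cons]; omega)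
          intro p hp q hq hH
          rcases List.mem_cons.1 hp with rfl | hp
          · exact kn_iff.1 (hall q hq) hH
          · exact hdom p hp q hq hH
        · have hq' := hq
          rw [qn_eq hG hκ hz] at hq'
          obtain ⟨hmem, hkn⟩ := find_mem hq'
          have hkn' : kn Hd κ q = false := by simpa using hkn
          have hact : actH t Ov Hd x h = false :: true :: pairBits q [] := by
            rw [actH_eq, hst]
            simp only [actS, Option.bind_some, hq]
          have hql := hG.short z hz q hmem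
          rw [show μ + 1 + (r * (P + 1) + 1) = μ + (r * (P + 1) + 1) + 1 by ring]
          refine ⟨?_, Or.inl ⟨pairBits q [], hact, ?_⟩⟩
          · rw [hact]
            simp only [List.length_cons, length_pairBits, List.length_nil]
            omega
          · have hb : decide ((true :: pad (N - 2) (pairBits q []) ∈ S)) = A q := by
              cases hA : A q with
              | true => exact decide_eq_true ((hS q).2 hA)
              | false => exact decide_eq_false (fun hcon => by
                  rw [(hS q).1 hcon] at hA; exact absurd hA (by simp))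
            rw [hb]
            refine ihμ _ ((q, A q) :: κ) z D ?_ (TK_cons hκ q) ?_ hz hpl ?_
            · rw [stH_append, hst]
              simp only [stepS, Option.bind_some, hq, List.headD_cons]
            · have := unk_lt hmem hkn' (A q)
              omega
            · intro p hp q'' hq'' hH
              exact Dom_cons (hdom p hp q'' hq'' hH) q (A q)
    -- the presented number
    set y := bst t Ov Hd x κ with hy
    have hyx : y ≤ x := best_le _ _ _
    have hyC : t.C A x y ∧ ((∃ z ≤ x, cd t Ov Hd κ x z) → cd t Ov Hd κ x y ∧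
        ∀ z ≤ x, cd t Ov Hd κ x z → t.rho (ov Ov κ) z ≤ t.rho (ov Ov κ) y) := by
      rcases best_cases (cd t Ov Hd κ) (t.rho (ov Ov κ)) x with hex | hzero
      · obtain ⟨b1, b2, b3⟩ := best_spec (ρ := t.rho (ov Ov κ)) hex
        exact ⟨((cd_iff hG hκ b1).1 b2).2, fun _ => ⟨b2, b3⟩⟩
      · refine ⟨?_, fun hex => ?_⟩
        · rw [hy]
          unfold bst
          rw [hzero]
          exact h0
        · obtain ⟨b1, b2, b3⟩ := best_spec (ρ := t.rho (ov Ov κ)) hex
          exact ⟨b2, b3⟩
    have hmax : ∀ z ≤ x, t.C A x z → (∀ q ∈ Tq t A x z, Hd q = true → Dom κ q) →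
        t.rho A z ≤ t.rho A y := by
      intro z hz hCz hd
      have hk1 : ∀ q ∈ Tq t A x z, kn Hd κ q = true := fun q hq => kn_iff.2 (hd q hq)
      have h1 : cd t Ov Hd κ x z := (cd_iff hG hκ hz).2 ⟨hk1, hCz⟩
      obtain ⟨h2, h3⟩ := hyC.2 ⟨z, hz, h1⟩
      have h4 := h3 z hz h1
      rw [rho_eq (known_eq hG hκ hz hk1),
        rho_eq (known_eq hG hκ hyx ((cd_iff hG hκ hyx).1 h2).1)] at h4
      exact h4
    have hact : actH t Ov Hd x h = true :: false :: y.bits := by
      rw [actH_eq, hst]
      simp only [actS, hc]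
      rfl
    have hyb : y.bits.length ≤ P := (length_bits_mono hyx).trans hG.self
    refine ⟨?_, Or.inr (Or.inl ⟨y.bits, r, hact, rfl, ?_⟩)⟩
    · rw [hact]
      simp only [List.length_cons]
      omega
    intro o ho
    rw [num_bits] at ho
    rcases o with _ | z
    · have ho' : Opt (t.C A) (t.rho A) x y := ho
      have hst2 : stH t Ov Hd x (h ++ [ansCode none]) = (κ, c, some y) := by
        rw [stH_append, hst]
        simp only [stepS, hc, ansCode]
        rfl
      have hact2 : actH t Ov Hd x (h ++ [ansCode none]) = true :: true :: y.bits := by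
        rw [actH_eq, hst2]
        rfl
      rw [show (r + 1) * (P + 1) = r * (P + 1) + P + 1 by ring]
      refine ⟨?_, Or.inr (Or.inr ⟨y.bits, hact2, ?_⟩)⟩
      · rw [hact2]
        simp only [List.length_cons]
        omega
      · rw [num_bits]
        exact ho'
    · obtain ⟨hz, hB⟩ : z ≤ x ∧ ¬ Bm (t.C A) (t.rho A) x y z := ho
      have hB' : t.rho A y < t.rho A z ∧ t.C A x z := by
        by_contra hcon
        apply hB
        refine ⟨hyC.1, fun hlt hCz => hcon ⟨hlt, hCz⟩⟩
      have hst2 : stH t Ov Hd x (h ++ [ansCode (some z)]) = (κ, some z, none) := by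
        rw [stH_append, hst]
        simp only [stepS, hc, ansCode, num_bits]
      rw [show (r + 1) * (P + 1) = P + (r * (P + 1) + 1) by ring]
      refine learn P _ κ z (Dom κ) hst2 hκ (unk_card hG κ hz) hz ?_ hdom
      refine ⟨hl, hz, hB'.2, ?_, ?_⟩
      · intro z' hz' hCz' hd
        exact (hmax z' hz' hCz' hd).trans_lt hB'.1
      · intro p hp q hq hH
        exact hdom p hp q hq hH

/-- The student wins if there is no long path of hidden strings. -/
theorem win_start (hG : Gm t Ov Hd A x P) (hN : 2 * P + 3 ≤ N)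
    (hS : ∀ q : List Bool, (true :: pad (N - 2) (pairBits q []) ∈ S) ↔ A q = true)
    (h0 : t.C A x 0) {k : ℕ}
    (hk : ¬ Ext (fun q => Hd q = true)
      (fun V => Tq t A x (mV (Tq t A x) (t.C A x) (t.rho A) x V)) k []) :
    Win S x (t.C A) (t.rho A) (actH t Ov Hd x) N (k * (P + 1) + 1) k [] := by
  refine win_main hG hN hS h0 hk k [] [] none [] rfl ?_ rfl trivial (by simp) (by simp)
  intro q b hb
  simp at hb

end win

end Pool.Agent.V8H38.OC
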