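import Pool.Agent.H591R3.PHG.Defs

/-!
# The uniform distribution as a mixture

Every node draws an element of `V`; the elements of `E` stand for the value `true` and the others
for `false`. For every node there is a set `U g`, such that, given that the drawn element is in
`E` or in `U g`, it is in `E` with probability exactly `t`. All the other elements are revealed.
-/

set_option autoImplicit false

namespace Pool.Agent.V8H38.OC

open Finset H568R2 Pool.Agent.H591R3 Pool.Agent.H591R3.PHG

section

variable {G : Type} [Fintype G] [DecidableEq G]

/-- the expectation for independent nodes with different weights -/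
noncomputable def ExG {A : Type} [Fintype A] (w : G → A → ℝ) (F : (G → A) → ℝ) : ℝ :=
  ∑ ω : G → A, (∏ g, w g (ω g)) * F ω

theorem ExG_push {A B : Type} [Fintype A] [Fintype B] [DecidableEq B] (h : G → A → B)
    (w : G → A → ℝ) (v : G → B → ℝ)
    (hv : ∀ g b, v g b = ∑ a ∈ univ.filter (fun a => h g a = b), w g a) (F : (G → B) → ℝ) :
    ExG w (fun ω => F (fun g => h g (ω g))) = ExG v F := by
  classical
  unfold ExG
  have key : ∀ X : G → B, (∏ i, v i (X i)) * F X =
      ∑ ω ∈ univ.filter (fun ω : G → A => (fun i => h i (ω i)) = X),
        (∏ i, w i (ω i)) * F (fun i => h i (ω i)) := by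
    intro X
    have h1 : ∏ i, v i (X i) = ∑ ω ∈ univ.filter (fun ω : G → A => (fun i => h i (ω i)) = X),
        ∏ i, w i (ω i) := by
      have : (univ.filter (fun ω : G → A => (fun i => h i (ω i)) = X)) =
          Fintype.piFinset (fun i => univ.filter (fun a => h i a = X i)) := by
        ext ω
        simp [Fintype.mem_piFinset, funext_iff]
      rw [this, ← Finset.prod_univ_sum]
      exact Finset.prod_congr rfl fun i _ => hv i (X i)
    rw [h1, Finset.sum_mul]
    refine Finset.sum_congr rfl fun ω hω => ?_
    rw [(Finset.mem_filter.1 hω).2]
  rw [Finset.sum_congr rfl fun X _ => key X]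
  rw [Finset.sum_fiberwise_of_maps_to (s := univ) (t := univ)
    (g := fun ω : G → A => (fun i => h i (ω i)))
    (f := fun ω : G → A => (∏ i, w i (ω i)) * F (fun i => h i (ω i)))]
  intro i _
  exact Finset.mem_univ _

theorem ExG_prod {A B : Type} [Fintype A] [Fintype B] (w : G → A → ℝ) (v : B → ℝ)
    (F : (G → A × B) → ℝ) : ExG (fun g (c : A × B) => w g c.1 * v c.2) F =
      ExG w (fun α => Ex v (fun β => F (fun g => (α g, β g)))) := by
  classical
  unfold ExG Ex
  rw [← (Equiv.arrowProdEquivProdArrow G (fun _ => A) (fun _ => B)).symm.sum_comp]
  rw [Fintype.sum_prod_type]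
  refine Finset.sum_congr rfl fun α _ => ?_
  rw [Finset.mul_sum]
  refine Finset.sum_congr rfl fun β _ => ?_
  simp only [Equiv.arrowProdEquivProdArrow, Equiv.coe_fn_symm_mk]
  rw [Finset.prod_mul_distrib, mul_assoc]

theorem ExG_mono {A : Type} [Fintype A] {w : G → A → ℝ} (hw : ∀ g a, 0 ≤ w g a)
    {F F' : (G → A) → ℝ} (h : ∀ ω, (∀ g, w g (ω g) ≠ 0) → F ω ≤ F' ω) : ExG w F ≤ ExG w F' := by
  unfold ExG
  refine Finset.sum_le_sum fun ω _ => ?_
  by_cases h0 : ∀ g, w g (ω g) ≠ 0
  · exact mul_le_mul_of_nonneg_left (h ω h0) (Finset.prod_nonneg fun g _ => hw g _)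
  · push Not at h0
    obtain ⟨g, hg⟩ := h0
    rw [Finset.prod_eq_zero (Finset.mem_univ g) hg, zero_mul, zero_mul]

end

/-- the weights of the status -/
noncomputable def lawM (q t : ℝ) : Option Bool → ℝ
  | none => q / t
  | some true => 0
  | some false => 1 - q / t

section mix

variable {G V : Type} [Fintype G] [DecidableEq G] [Fintype V] [DecidableEq V]

open Classical in
theorem mix {t : ℝ} (ht0 : 0 < t) (ht1 : t < 1) (E : Finset V) (U : G → Finset V)
    (hdis : ∀ g, Disjoint (U g) E) (e0 : V) (he0 : e0 ∈ E)
    (hU : ∀ g, ((U g).card : ℝ) * t = (1 - t) * E.card) (Φ : (G → V) → ℝ)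
    (hΦ : ∀ y, Φ (fun g => if y g ∈ E then e0 else y g) = Φ y) (B : (G → Option Bool) → ℝ)
    (hB : ∀ c : G → V, (∀ g, c g ∉ E) → Ex (ber t) (fun b : G → Bool =>
      Φ (fun g => if c g ∈ U g ∧ b g = true then e0 else c g)) ≤
        B (fun g => if c g ∈ U g then none else some false)) :
    Ex (fun _ : V => (1 : ℝ) / Fintype.card V) Φ ≤
      Ex (lawM (E.card / Fintype.card V) t) B := by
  have hVpos : (0 : ℝ) < Fintype.card V := by
    have : 0 < Fintype.card V := Fintype.card_pos_iff.2 ⟨e0⟩
    exact_mod_cast this
  set μ : ℝ := 1 / Fintype.card V with hμ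
  have hμ0 : 0 < μ := by positivity
  have h1t : 0 < 1 - t := by linarith
  set μ' : V → ℝ := fun v => if v = e0 then E.card * μ else if v ∈ E then 0 else μ with hμ'
  set w : G → V → ℝ := fun g c => if c ∈ E then 0 else if c ∈ U g then μ / (1 - t) else μ with hw
  have hUE : ∀ g c, c ∈ U g → c ∉ E := fun g c hc hE =>
    (Finset.disjoint_left.1 (hdis g)) hc hE
  have hUe : ∀ g c, c ∈ U g → c ≠ e0 := fun g c hc h => hUE g c hc (h ▸ he0)
  -- first step
  have s1 : Ex (fun _ : V => μ) Φ = ExG (fun _ : G => μ') Φ := by
    have h1 := ExG_push (G := G) (fun _ y => if y ∈ E then e0 else y) (fun _ _ => μ)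
      (fun _ => μ') ?_ Φ
    · rw [← h1]
      unfold Ex ExG
      refine Finset.sum_congr rfl fun y _ => ?_
      exact congrArg (fun q => (∏ _i : G, μ) * q) (hΦ y).symm
    · intro g v
      rw [Finset.sum_const, nsmul_eq_mul]
      simp only [hμ']
      by_cases hv : v = e0
      · subst hv
        rw [if_pos rfl]
        congr 2
        apply congrArg Finset.card
        ext a
        rw [Finset.mem_filter]
        constructor
        · intro ha
          exact ⟨Finset.mem_univ _, if_pos ha⟩
        · rintro ⟨-, ha⟩
          by_contra hcon
          rw [if_neg hcon] at ha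
          rw [ha] at hcon
          exact hcon he0
      · rw [if_neg hv]
        by_cases hvE : v ∈ E
        · rw [if_pos hvE]
          have : univ.filter (fun a : V => (if a ∈ E then e0 else a) = v) = ∅ := by
            rw [Finset.filter_eq_empty_iff]
            intro a _ ha
            split_ifs at ha with h
            · exact hv ha.symm
            · rw [ha] at h
              exact h hvE
          rw [this]
          simp
        · rw [if_neg hvE]
          have : univ.filter (fun a : V => (if a ∈ E then e0 else a) = v) = {v} := by
            ext a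
            rw [Finset.mem_filter, Finset.mem_singleton]
            constructor
            · rintro ⟨-, ha⟩
              split_ifs at ha with h
              · exact absurd ha.symm hv
              · exact ha
            · rintro rfl
              exact ⟨Finset.mem_univ _, if_neg hvE⟩
          rw [this]
          simp
  -- second step
  have s2 : ExG (fun g (p : V × Bool) => w g p.1 * ber t p.2) (fun ω => Φ (fun g =>
      if (ω g).1 ∈ U g ∧ (ω g).2 = true then e0 else (ω g).1)) = ExG (fun _ : G => μ') Φ := by
    refine ExG_push (G := G) (fun g (p : V × Bool) =>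
      if p.1 ∈ U g ∧ p.2 = true then e0 else p.1) _ _ ?_ Φ
    intro g v
    rw [Finset.sum_filter, Fintype.sum_prod_type]
    simp only [Fintype.sum_bool, and_true, Bool.false_eq_true, and_false, if_false]
    have hbt : ber t true = t := by unfold ber; simp
    have hbf : ber t false = 1 - t := by unfold ber; simp
    rw [hbt, hbf]
    by_cases hv : v = e0
    · have h1 : ∀ c : V, ((if (if c ∈ U g then e0 else c) = v then w g c * t else 0) +
          (if c = v then w g c * (1 - t) else 0)) = if c ∈ U g then μ / (1 - t) * t else 0 := by
        intro c
        subst hv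
        by_cases hc : c ∈ U g
        · rw [if_pos hc, if_pos rfl, if_neg (hUe g c hc), if_pos hc]
          simp only [hw]
          rw [if_neg (hUE g c hc), if_pos hc, add_zero]
        · rw [if_neg hc, if_neg hc]
          by_cases hce : c = v
          · rw [if_pos hce, if_pos hce]
            simp only [hw]
            rw [hce, if_pos he0]
            ring
          · rw [if_neg hce, if_neg hce, add_zero]
      rw [Finset.sum_congr rfl fun c _ => h1 c, ← Finset.sum_filter, Finset.sum_const,
        nsmul_eq_mul]
      simp only [hμ']
      rw [if_pos hv]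
      have h2 : univ.filter (fun c : V => c ∈ U g) = U g := by ext c; simp
      rw [h2]
      have h3 := hU g
      field_simp
      linarith
    · have h1 : ∀ c : V, c ≠ v → ((if (if c ∈ U g then e0 else c) = v then w g c * t else 0) +
          (if c = v then w g c * (1 - t) else 0)) = 0 := by
        intro c hc
        rw [if_neg hc, if_neg, add_zero]
        split_ifs
        · exact fun h => hv h.symm
        · exact hc
      rw [Finset.sum_eq_single v (fun c _ hc => h1 c hc) (fun h => absurd (Finset.mem_univ _) h)]
      simp only [hμ', hw]
      rw [if_neg hv, if_true]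
      by_cases hvE : v ∈ E
      · simp [hvE]
      · rw [if_neg hvE, if_neg hvE]
        by_cases hvU : v ∈ U g
        · rw [if_pos hvU, if_pos hvU, if_neg (fun h => hv h.symm)]
          field_simp
          ring
        · rw [if_neg hvU, if_neg hvU, if_pos rfl]
          ring
  -- third step
  have hwnn : ∀ g c, 0 ≤ w g c := by
    intro g c
    simp only [hw]
    split_ifs
    · exact le_rfl
    · positivity
    · exact hμ0.le
  have s3 : ExG w (fun c => Ex (ber t) (fun b : G → Bool =>
      Φ (fun g => if c g ∈ U g ∧ b g = true then e0 else c g))) ≤
      ExG w (fun c => B (fun g => if c g ∈ U g then none else some false)) := by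
    refine ExG_mono hwnn fun c hc => hB c fun g hg => ?_
    apply hc g
    simp only [hw]
    rw [if_pos hg]
  have s4 : ExG w (fun c => B (fun g => if c g ∈ U g then none else some false)) =
      ExG (fun _ : G => lawM (E.card / Fintype.card V) t) B := by
    refine ExG_push (G := G) (fun g c => if c ∈ U g then none else some false) w _ ?_ B
    intro g v
    have hUr : ((U g).card : ℝ) = (1 - t) * E.card / t := by
      rw [eq_div_iff ht0.ne']
      exact hU g
    rcases v with _ | b
    · have h1 : univ.filter (fun c : V => (if c ∈ U g then none else some false : Option Bool) =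
          none) = U g := by
        ext c
        simp
      rw [h1]
      have h2 : ∀ c ∈ U g, w g c = μ / (1 - t) := by
        intro c hc
        simp only [hw]
        rw [if_neg (hUE g c hc), if_pos hc]
      rw [Finset.sum_congr rfl h2, Finset.sum_const, nsmul_eq_mul, hUr]
      simp only [lawM, hμ]
      field_simp
    · cases b with
      | true =>
        have h1 : univ.filter (fun c : V => (if c ∈ U g then none else some false : Option Bool) =
            some true) = ∅ := by
          rw [Finset.filter_eq_empty_iff]
          intro c _
          split_ifs <;> simp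
        rw [h1]
        simp [lawM]
      | false =>
        have h1 : univ.filter (fun c : V => (if c ∈ U g then none else some false : Option Bool) =
            some false) = univ \ U g := by
          ext c
          simp
        have h2 : ∀ c ∈ univ \ U g, w g c = if c ∈ univ \ (U g ∪ E) then μ else 0 := by
          intro c hc
          rw [Finset.mem_sdiff] at hc
          simp only [hw]
          by_cases hcE : c ∈ E
          · simp [hcE]
          · simp [hcE, hc.2]
        have h3 : univ.filter (fun c : V => c ∈ univ \ U g ∧ c ∈ univ \ (U g ∪ E)) =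
            univ \ (U g ∪ E) := by
          ext c
          simp only [Finset.mem_filter, Finset.mem_univ, true_and, Finset.mem_sdiff,
            Finset.mem_union, not_or]
          tauto
        rw [h1, Finset.sum_congr rfl h2, ← Finset.sum_filter, Finset.sum_const, nsmul_eq_mul]
        have h4 : (univ \ U g).filter (fun c => c ∈ univ \ (U g ∪ E)) = univ \ (U g ∪ E) := by
          ext c
          simp only [Finset.mem_filter, Finset.mem_univ, true_and, Finset.mem_sdiff,
            Finset.mem_union, not_or]
          tauto
        rw [h4]
        have h5 : ((univ \ (U g ∪ E)).card : ℝ) = Fintype.card V - (U g).card - E.card := by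
          have h6 : (univ \ (U g ∪ E)).card + (U g ∪ E).card = Fintype.card V := by
            rw [← Finset.card_univ]
            exact Finset.card_sdiff_add_card_eq_card (Finset.subset_univ _)
          rw [Finset.card_union_of_disjoint (hdis g)] at h6
          have h7 : (((univ \ (U g ∪ E)).card + ((U g).card + E.card) : ℕ) : ℝ) =
              (Fintype.card V : ℕ) := by exact_mod_cast h6
          push_cast at h7
          linarith
        rw [h5, hUr]
        simp only [lawM, hμ]
        field_simp
        ring
  calc Ex (fun _ : V => μ) Φ = ExG (fun _ : G => μ') Φ := s1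
    _ = ExG (fun g (p : V × Bool) => w g p.1 * ber t p.2) (fun ω => Φ (fun g =>
      if (ω g).1 ∈ U g ∧ (ω g).2 = true then e0 else (ω g).1)) := s2.symm
    _ = ExG w (fun c => Ex (ber t) (fun b : G → Bool =>
      Φ (fun g => if c g ∈ U g ∧ b g = true then e0 else c g))) := ExG_prod w (ber t) _
    _ ≤ _ := s3
    _ = ExG (fun _ : G => lawM (E.card / Fintype.card V) t) B := s4
    _ = _ := rfl

end mix

end Pool.Agent.V8H38.OC
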