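import Pool.Agent.V8H38.OC.PathP
import Pool.Agent.V8H38.OC.Mix
import Pool.Agent.H591R3.PHG.Inv

/-!
# Almost all nodes have many hidden strings
-/

set_option autoImplicit false

namespace Pool.Agent.V8H38.OC

open Finset H568R2 Pool.Agent.H676 Pool.Agent.NPC Pool.Agent.H620R2.Gauge Pool.Agent.V8H57.CX
  Pool.Agent.V8H57.RX Pool.Agent.H591R3 Pool.Agent.H591R3.PHG MeasureTheory Filter

theorem ber_half (b : Bool) : ber (1 / 2) b = 1 / 2 := by
  unfold ber
  cases b <;> norm_num

/-- the coins in blocks -/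
theorem Ex_curry {A B : Type} [Fintype A] [DecidableEq A] [Fintype B] [DecidableEq B]
    (F : (A × B → Bool) → ℝ) : Ex (ber (1 / 2)) F =
      Ex (fun _ : B → Bool => (1 : ℝ) / Fintype.card (B → Bool))
        (fun ω : A → B → Bool => F (fun p => ω p.1 p.2)) := by
  unfold Ex
  refine Fintype.sum_equiv (Equiv.curry A B Bool) _ _ fun z => ?_
  congr 1
  simp only [ber_half, Finset.prod_const, Finset.card_univ, Fintype.card_prod, Fintype.card_pi,
    Fintype.card_bool]
  push_cast
  rw [mul_comm (Fintype.card A), pow_mul, one_div_pow]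

open Classical in
/-- The probability that there are few hidden strings. -/
theorem few_prob {V : Type} [Fintype V] [DecidableEq V] (E : Finset V) (r N : ℕ) :
    Ex (ber (1 / 2)) (fun z : V × Fin r → Bool =>
      if (univ.filter (fun c : V => c ∉ E ∧ ∀ j : Fin r, z (c, j) = true)).card < N
        then (1 : ℝ) else 0) ≤
      Real.exp N * (1 - (1 / 2) ^ r * (1 - Real.exp (-1))) ^ (univ \ E).card := by
  rw [Ex_curry]
  set φ : V → (Fin r → Bool) → ℝ := fun c s =>
    if c ∉ E ∧ ∀ j : Fin r, s j = true then Real.exp (-1) else 1 with hφ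
  have hle : ∀ ω : V → Fin r → Bool,
      (if (univ.filter (fun c : V => c ∉ E ∧ ∀ j : Fin r, ω c j = true)).card < N
        then (1 : ℝ) else 0) ≤ Real.exp N * ∏ c, φ c (ω c) := by
    intro ω
    have h1 : ∏ c, φ c (ω c) = Real.exp (-((univ.filter (fun c : V => c ∉ E ∧
        ∀ j : Fin r, ω c j = true)).card : ℝ)) := by
      simp only [hφ]
      rw [Finset.prod_ite, Finset.prod_const, Finset.prod_const_one, mul_one, ← Real.exp_nat_mul]
      congr 1
      ring
    rw [h1, ← Real.exp_add]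
    split_ifs with h
    · rw [← Real.exp_zero]
      apply Real.exp_le_exp.2
      have : ((univ.filter (fun c : V => c ∉ E ∧ ∀ j : Fin r, ω c j = true)).card : ℝ) ≤ N := by
        exact_mod_cast h.le
      linarith
    · exact (Real.exp_pos _).le
  refine (Ex_mono (fun _ => by positivity) hle).trans ?_
  rw [Ex_smul]
  apply mul_le_mul_of_nonneg_left _ (Real.exp_pos _).le
  apply le_of_eq
  unfold Ex
  simp only [← Finset.prod_mul_distrib]
  have h2 : ∑ ω : V → Fin r → Bool, ∏ c, (1 / (Fintype.card (Fin r → Bool) : ℝ) * φ c (ω c)) =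
      ∏ c : V, ∑ s : Fin r → Bool, 1 / (Fintype.card (Fin r → Bool) : ℝ) * φ c s := by
    rw [Finset.prod_univ_sum, Fintype.piFinset_univ]
  rw [h2]
  have hcard : (Fintype.card (Fin r → Bool) : ℝ) = 2 ^ r := by
    rw [Fintype.card_pi]
    simp
  have h3 : ∀ c : V, ∑ s : Fin r → Bool, 1 / (Fintype.card (Fin r → Bool) : ℝ) * φ c s =
      if c ∈ univ \ E then 1 - (1 / 2) ^ r * (1 - Real.exp (-1)) else 1 := by
    intro c
    rw [← Finset.mul_sum, hcard]
    by_cases hc : c ∈ E
    · rw [if_neg (by simp [hc])]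
      have : ∀ s : Fin r → Bool, φ c s = 1 := by
        intro s
        simp [hφ, hc]
      simp only [this, Finset.sum_const, Finset.card_univ, nsmul_eq_mul, mul_one]
      rw [hcard]
      field_simp
    · rw [if_pos (by simp [hc])]
      have h4 : ∀ s : Fin r → Bool, φ c s =
          1 - (if s = fun _ => true then (1 - Real.exp (-1)) else 0) := by
        intro s
        simp only [hφ]
        by_cases hs : s = fun _ => true
        · rw [if_pos hs, if_pos ⟨hc, fun j => by rw [hs]⟩]
          ring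
        · rw [if_neg hs, if_neg]
          · ring
          · rintro ⟨-, h⟩
            exact hs (funext h)
      simp only [h4, Finset.sum_sub_distrib, Finset.sum_ite_eq', Finset.mem_univ, if_true,
        Finset.sum_const, Finset.card_univ, nsmul_eq_mul, mul_one]
      rw [hcard, one_div_pow]
      field_simp
  rw [Finset.prod_congr rfl fun c _ => h3 c, Finset.prod_ite_mem, Finset.univ_inter,
    Finset.prod_const]

/-! ### The strings which stand for nothing -/

/-- the strings of length `m` which stand for nothing -/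
def Em (m : ℕ) : Finset (Fin m → Bool) := univ.filter (fun c => emp (List.ofFn c) = true)

theorem emp_ofFn {m r : ℕ} (hm : m = r ^ 2) (c : Fin m → Bool) :
    emp (List.ofFn c) = true ↔ ∀ j : Fin m, j.val < 64 * r → c j = true := by
  have hs : Nat.sqrt m = r := by rw [hm]; exact Nat.sqrt_eq' r
  unfold emp
  rw [List.length_ofFn, hs, List.all_eq_true]
  constructor
  · intro h j hj
    have h1 : c j ∈ (List.ofFn c).take (64 * r) := by
      rw [List.mem_take_iff_getElem]
      refine ⟨j.val, ?_, ?_⟩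
      · rw [List.length_ofFn]
        exact lt_min hj j.isLt
      · simp
    simpa using h _ h1
  · intro h b hb
    rw [List.mem_take_iff_getElem] at hb
    obtain ⟨i, hi, rfl⟩ := hb
    rw [List.length_ofFn] at hi
    have h1 := h ⟨i, (lt_min_iff.1 hi).2⟩ (lt_min_iff.1 hi).1
    simpa using h1

theorem Em_card {m r : ℕ} (hm : m = r ^ 2) (hr : 64 ≤ r) : (Em m).card = 2 ^ (m - 64 * r) := by
  have h1 : Em m = Fintype.piFinset (fun j : Fin m =>
      if j.val < 64 * r then ({true} : Finset Bool) else univ) := by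
    ext c
    unfold Em
    rw [Finset.mem_filter, Fintype.mem_piFinset, emp_ofFn hm]
    simp only [Finset.mem_univ, true_and]
    refine forall_congr' fun j => ?_
    by_cases hj : j.val < 64 * r
    · simp [hj]
    · simp [hj]
  rw [h1, Fintype.card_piFinset]
  have h2 : ∀ j : Fin m, (if j.val < 64 * r then ({true} : Finset Bool) else univ).card =
      if j.val < 64 * r then 1 else 2 := by
    intro j
    split_ifs <;> simp
  rw [Finset.prod_congr rfl fun j _ => h2 j, Finset.prod_ite, Finset.prod_const_one, one_mul,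
    Finset.prod_const]
  congr 1
  have h3 := Finset.card_filter_add_card_filter_not (s := (univ : Finset (Fin m)))
    (fun j : Fin m => j.val < 64 * r)
  rw [Fin.card_filter_val_lt, Finset.card_univ, Fintype.card_fin] at h3
  have h4 : 64 * r ≤ m := by rw [hm]; nlinarith
  rw [min_eq_right h4] at h3
  omega

/-- the number of elements of the sets `U g` -/
def Nm (r : ℕ) : ℕ := (2 ^ (32 * r) - 1) * 2 ^ (r ^ 2 - 64 * r)

/-- the node `a` has few hidden strings -/
def badN (O : Oracle) (r : ℕ) (a : List Bool) : Prop :=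
  (univ.filter (fun c : Fin (r ^ 2) → Bool => c ∉ Em (r ^ 2) ∧
    ∀ j < r, O (hc (a ++ List.ofFn c) j) = true)).card < Nm r

theorem few_num {r : ℕ} (hr : 64 ≤ r) :
    Real.exp (Nm r) * (1 - (1 / 2) ^ r * (1 - Real.exp (-1))) ^
      (univ \ Em (r ^ 2) : Finset (Fin (r ^ 2) → Bool)).card ≤
      Real.exp (-(2 ^ (r ^ 2 - 32 * r) : ℝ)) := by
  have hrr : 64 * r ≤ r ^ 2 := by nlinarith
  have hcard : (univ \ Em (r ^ 2) : Finset (Fin (r ^ 2) → Bool)).card =
      2 ^ (r ^ 2) - 2 ^ (r ^ 2 - 64 * r) := by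
    rw [Finset.card_sdiff_of_subset (Finset.subset_univ _), Em_card rfl hr, Finset.card_univ,
      Fintype.card_pi]
    simp
  have h1 : 2 ^ (r ^ 2 - 1) ≤ 2 ^ (r ^ 2) - 2 ^ (r ^ 2 - 64 * r) := by
    have e1 : 2 ^ (r ^ 2) = 2 * 2 ^ (r ^ 2 - 1) := by
      rw [← pow_succ']
      congr 1
      have : 1 ≤ r ^ 2 := by nlinarith
      omega
    have e2 : 2 ^ (r ^ 2 - 64 * r) ≤ 2 ^ (r ^ 2 - 1) :=
      Nat.pow_le_pow_right (by norm_num) (by omega)
    omega
  rw [hcard]
  set M := 2 ^ (r ^ 2) - 2 ^ (r ^ 2 - 64 * r) with hM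
  have he : Real.exp (-1) ≤ 1 / 2 := by
    rw [Real.exp_neg, one_div]
    apply inv_anti₀ (by norm_num)
    have := Real.add_one_le_exp (1 : ℝ)
    linarith
  have he0 := Real.exp_pos (-1)
  set y : ℝ := (1 / 2) ^ r * (1 - Real.exp (-1)) with hy
  have hy1 : (1 / 2) ^ (r + 1) ≤ y := by
    rw [hy, pow_succ]
    apply mul_le_mul_of_nonneg_left _ (by positivity)
    linarith
  have hyle : y ≤ 1 := by
    rw [hy]
    have h2 : ((1 : ℝ) / 2) ^ r ≤ 1 := pow_le_one₀ (by norm_num) (by norm_num)
    nlinarith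
  have h2 : (1 - y) ^ M ≤ Real.exp (-(y * M)) := by
    calc (1 - y) ^ M ≤ (Real.exp (-y)) ^ M := by
          apply pow_le_pow_left₀ (by linarith)
          have := Real.add_one_le_exp (-y)
          linarith
      _ = Real.exp (-(y * M)) := by
          rw [← Real.exp_nat_mul]
          congr 1
          ring
  have h3 : (2 : ℝ) ^ (r ^ 2 - r - 2) ≤ y * M := by
    have h4 : (2 : ℝ) ^ (r ^ 2 - 1) ≤ M := by exact_mod_cast h1
    have h5 : (2 : ℝ) ^ (r ^ 2 - 1) = 2 ^ (r ^ 2 - r - 2) * 2 ^ (r + 1) := by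
      rw [← pow_add]
      congr 1
      omega
    have h6 : ((1 : ℝ) / 2) ^ (r + 1) * 2 ^ (r + 1) = 1 := by
      rw [← mul_pow]
      norm_num
    calc (2 : ℝ) ^ (r ^ 2 - r - 2) = (1 / 2) ^ (r + 1) * 2 ^ (r ^ 2 - 1) := by
          rw [h5, mul_left_comm, h6, mul_one]
      _ ≤ y * M := mul_le_mul hy1 h4 (by positivity) (le_trans (by positivity) hy1)
  have h5 : (Nm r : ℝ) ≤ 2 ^ (r ^ 2 - 32 * r) := by
    have h6 : Nm r ≤ 2 ^ (r ^ 2 - 32 * r) := by
      unfold Nm
      calc (2 ^ (32 * r) - 1) * 2 ^ (r ^ 2 - 64 * r) ≤ 2 ^ (32 * r) * 2 ^ (r ^ 2 - 64 * r) :=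
            Nat.mul_le_mul_right _ (Nat.sub_le _ _)
        _ = 2 ^ (r ^ 2 - 32 * r) := by
            rw [← pow_add]
            congr 1
            omega
    exact_mod_cast h6
  have h7 : (2 : ℝ) * 2 ^ (r ^ 2 - 32 * r) ≤ 2 ^ (r ^ 2 - r - 2) := by
    rw [← pow_succ']
    exact pow_le_pow_right₀ (by norm_num) (by omega)
  calc Real.exp (Nm r) * (1 - y) ^ M ≤ Real.exp (Nm r) * Real.exp (-(y * M)) :=
        mul_le_mul_of_nonneg_left h2 (Real.exp_pos _).le
    _ = Real.exp (Nm r + -(y * M)) := (Real.exp_add _ _).symm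
    _ ≤ _ := by
        apply Real.exp_le_exp.2
        linarith

open Classical in
theorem bad_node {r : ℕ} (hr : 64 ≤ r) (a : List Bool) :
    ranO {O | badN O r a} ≤ ENNReal.ofReal (Real.exp (-(2 ^ (r ^ 2 - 32 * r) : ℝ))) := by
  have hinj : Function.Injective (fun p : (Fin (r ^ 2) → Bool) × Fin r =>
      hc (a ++ List.ofFn p.1) p.2) := by
    rintro ⟨c, j⟩ ⟨c', j'⟩ h
    obtain ⟨h1, h2⟩ := hc_inj h
    have h3 := List.ofFn_injective (List.append_cancel_left h1)
    simp only at h3 h2
    rw [h3, Fin.ext h2]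
  refine resample (J := (Fin (r ^ 2) → Bool) × Fin r) _ (2 * (a.length + r ^ 2) + r + 2) ?_
    (fun p => hc (a ++ List.ofFn p.1) p.2) hinj ?_ _ ?_
  · intro O O' h hb
    have h1 : (univ.filter (fun c : Fin (r ^ 2) → Bool => c ∉ Em (r ^ 2) ∧
        ∀ j < r, O (hc (a ++ List.ofFn c) j) = true)) =
        univ.filter (fun c : Fin (r ^ 2) → Bool => c ∉ Em (r ^ 2) ∧
        ∀ j < r, O' (hc (a ++ List.ofFn c) j) = true) := by
      apply Finset.filter_congr
      intro c _
      refine and_congr_right fun _ => forall_congr' fun j => forall_congr' fun hj => ?_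
      rw [h]
      rw [length_hc, List.length_append, List.length_ofFn]
      omega
    unfold badN at hb ⊢
    rw [← h1]
    exact hb
  · rintro ⟨c, j⟩
    have := j.isLt
    rw [length_hc, List.length_append, List.length_ofFn]
    omega
  · intro O
    refine le_trans (Ex_mono ber_half_nonneg fun z => ?_)
      ((few_prob (Em (r ^ 2)) r (Nm r)).trans (few_num hr))
    apply le_of_eq
    refine if_congr ?_ rfl rfl
    unfold badN
    have h1 : (univ.filter (fun c : Fin (r ^ 2) → Bool => c ∉ Em (r ^ 2) ∧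
        ∀ j < r, Proj.owr (fun p : (Fin (r ^ 2) → Bool) × Fin r =>
          hc (a ++ List.ofFn p.1) p.2) O z (hc (a ++ List.ofFn c) j) = true)) =
        univ.filter (fun c : Fin (r ^ 2) → Bool => c ∉ Em (r ^ 2) ∧
          ∀ j : Fin r, z (c, j) = true) := by
      apply Finset.filter_congr
      intro c _
      refine and_congr_right fun _ => ?_
      have h2 : ∀ j : Fin r, Proj.owr (fun p : (Fin (r ^ 2) → Bool) × Fin r =>
          hc (a ++ List.ofFn p.1) p.2) O z (hc (a ++ List.ofFn c) j) = z (c, j) := fun j =>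
        Proj.owr_e hinj O z (c, j)
      constructor
      · intro h j
        rw [← h2]
        exact h j j.isLt
      · intro h j hj
        have := h2 ⟨j, hj⟩
        simp only at this
        rw [this]
        exact h _
    rw [h1]

/-! ### The law of the status -/

theorem inv_lawM {n : ℕ} : Inv n (lawM (1 / 2 ^ (8 * n)) (1 / 2 ^ (4 * n))) := by
  have h0 : (0 : ℝ) < 2 ^ (4 * n) := by positivity
  have h8 : (2 : ℝ) ^ (8 * n) = 2 ^ (4 * n) * 2 ^ (4 * n) := by
    rw [← pow_add]; congr 1; ring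
  have h1 : (1 : ℝ) / 2 ^ (8 * n) / (1 / 2 ^ (4 * n)) = 1 / 2 ^ (4 * n) := by
    rw [h8]
    field_simp
  have h2 : (1 : ℝ) / 2 ^ (4 * n) ≤ 1 := by
    rw [div_le_one h0]
    exact one_le_pow₀ (by norm_num)
  have h3 : lawM (1 / 2 ^ (8 * n)) (1 / 2 ^ (4 * n)) none / 2 ^ (4 * n) +
      lawM (1 / 2 ^ (8 * n)) (1 / 2 ^ (4 * n)) (some true) = 1 / 2 ^ (8 * n) := by
    simp only [lawM]
    rw [h1, add_zero, div_div, ← h8]
  refine ⟨?_, ?_, ?_, ?_, ?_⟩
  · rintro (_ | _ | _)
    · simp only [lawM]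
      positivity
    · simp only [lawM]
      rw [h1]
      linarith
    · simp only [lawM]
      exact le_rfl
  · rw [Fintype.sum_option, Fintype.sum_bool]
    simp only [lawM]
    ring
  · rw [h3]
    simp only [lawM]
    positivity
  · rw [h3, Real.exp_neg, one_div]
    apply inv_anti₀ (by positivity)
    have h4 : (2 : ℝ) ≤ Real.exp 1 := by
      have := Real.add_one_le_exp (1 : ℝ)
      linarith
    calc (2 : ℝ) ^ (8 * n) ≤ (Real.exp 1) ^ (8 * n) := pow_le_pow_left₀ (by norm_num) h4 _
      _ = Real.exp (8 * n) := by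
          rw [← Real.exp_nat_mul]
          push_cast
          rw [mul_one]
      _ ≤ Real.exp (36 * n) := by
          apply Real.exp_le_exp.2
          have : (0 : ℝ) ≤ n := Nat.cast_nonneg n
          linarith
  · exact h3.le

end Pool.Agent.V8H38.OC
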