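import Pool.Agent.H591R3.PHG.Main

/-!
# The sizes of the levels

(The theorem `exists_sizes` of helper591 with the addition that the numbers are positive; the proof
is the same.)
-/

set_option autoImplicit false

namespace Pool.Agent.V8H38.OC

open Finset H568R2 Pool.Agent.H676 Pool.Agent.H620R2.Gauge Pool.Agent.NPC Pool.Agent.H591R3
  Pool.Agent.H591R3.PHG

theorem pos_of_pow {n a : ℕ} (hn : 5 ≤ n) {p B : ℝ} (hi : p ≤ 1 / 2 ^ (8 * n)) (hB : 1 / 2 ≤ B)
    (h : B ≤ (2 : ℝ) ^ a * p) : 1 ≤ a := by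
  rcases Nat.eq_zero_or_pos a with h0 | h0
  · exfalso
    subst h0
    have h1 : (1 : ℝ) / 2 ^ (8 * n) ≤ 1 / 4 := by
      apply one_div_le_one_div_of_le (by norm_num)
      calc (4 : ℝ) = 2 ^ 2 := by norm_num
        _ ≤ 2 ^ (8 * n) := pow_le_pow_right₀ (by norm_num) (by omega)
    rw [pow_zero, one_mul] at h
    linarith
  · exact h0

theorem exists_sizes' {n : ℕ} (hn : 5 ≤ n) : ∀ (k : ℕ) (law : Option Bool → ℝ), Inv n law →
    ∃ as : List ℕ, as.length = k + 1 ∧ (∀ a ∈ as, 1 ≤ a ∧ a ≤ 64 * n) ∧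
      ∀ (X : Type) [Fintype X] [DecidableEq X] (D g : ℕ), 16 * D ≤ 2 ^ (4 * n) →
        4 * g ≤ Fintype.card X →
        Ex law (Wt (X := X) (1 / 2 ^ (4 * n)) (1 / 2 ^ (2 * n)) (8 * n * 2 ^ (4 * n)) (1 / 256) D g
          (pw as)) ≤ (9 / 10) ^ Fintype.card X := by
  classical
  have h2n : (1 : ℝ) / 2 ^ (2 * n) ≤ 1 / 32 := by
    apply one_div_le_one_div_of_le (by norm_num)
    calc (32 : ℝ) = 2 ^ 5 := by norm_num
      _ ≤ 2 ^ (2 * n) := pow_le_pow_right₀ (by norm_num) (by omega)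
  intro k
  induction k with
  | zero =>
    intro law hinv
    obtain ⟨a, ha, h1, h2⟩ := exists_pow hn (B := 1 / 2) hinv.lo hinv.hi le_rfl (by
      have : (5 : ℝ) ≤ n := by exact_mod_cast hn
      linarith)
    refine ⟨[a], rfl, by simpa using ⟨pos_of_pow hn hinv.hi le_rfl h1, ha⟩, ?_⟩
    intro X _ _ D g hD hg
    have hT : (64 : ℕ) ≤ 2 ^ (4 * n) := by
      calc 64 = 2 ^ 6 := by norm_num
        _ ≤ 2 ^ (4 * n) := Nat.pow_le_pow_right (by norm_num) (by omega)
    have h16 : 16 ∣ 2 ^ (4 * n) := by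
      have : (16 : ℕ) = 2 ^ 4 := by norm_num
      rw [this]
      exact pow_dvd_pow 2 (by omega)
    have hc : (((2 ^ (4 * n) : ℕ)) : ℝ) = 2 ^ (4 * n) := by push_cast; rfl
    have hc2 : (((2 ^ a : ℕ)) : ℝ) = 2 ^ a := by push_cast; rfl
    have hgp := good_prob (c := 2 ^ a) (D := D) (T := 2 ^ (4 * n)) (ξ := 1 / 2 ^ (2 * n)) hT h16 hD
      (by positivity) h2n (law := law) hinv.nonneg hinv.sum (by rw [hc]; exact hinv.rare)
      (by rw [hc, hc2]; exact h1) (by rw [hc, hc2]; linarith)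
    rw [hc] at hgp
    exact few_good (X := X) (c := 2 ^ a) hinv.nonneg hinv.sum hgp hg
  | succ k ih =>
    intro law hinv
    have hn5 : (5 : ℝ) ≤ n := by exact_mod_cast hn
    obtain ⟨a, ha, h1, h2⟩ := exists_pow hn (B := 16 * n) hinv.lo hinv.hi (by linarith) le_rfl
    have hc2 : (((2 ^ a : ℕ)) : ℝ) = 2 ^ a := by push_cast; rfl
    have hinv' := inv_step (c := 2 ^ a) hn hinv (by rw [hc2]; exact h1)
      (by rw [hc2]; linarith)
    obtain ⟨as, hlen, has, hX⟩ := ih _ hinv'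
    refine ⟨a :: as, by simp [hlen], ?_, ?_⟩
    · intro a' ha'
      rcases List.mem_cons.1 ha' with rfl | h
      · exact ⟨pos_of_pow hn hinv.hi (by linarith) h1, ha⟩
      · exact has a' h
    · intro X _ _ D g hD hg
      refine le_trans (le_of_eq ?_) (hX X D g hD hg)
      have hne : pw as ≠ [] := by
        intro h
        have : (pw as).length = 0 := by rw [h]; rfl
        rw [pw, List.length_map] at this
        omega
      rw [← law_stage (G := Idx X (pw as)) (c := 2 ^ a) (smin := 8 * n * 2 ^ (4 * n))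
        (t := 1 / 2 ^ (4 * n)) (t' := 1 / 2 ^ (4 * n)) (ξ := 1 / 2 ^ (2 * n)) law]
      show Ex law (Wt (X := X) _ _ _ _ D g (2 ^ a :: pw as)) = _
      unfold Ex
      refine Finset.sum_congr rfl fun s _ => ?_
      rw [Wt_two _ _ _ _ _ _ _ _ hne]
      rfl

end Pool.Agent.V8H38.OC
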