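import Pool.Agent.V8H38.OC.Node
import Pool.Agent.V8H38.OC.Sizes

/-!
# The probability that a computation with `k` quantifiers decides the hard language
-/

set_option autoImplicit false

namespace Pool.Agent.V8H38.OC

open Finset H568R2 Pool.Agent.H676 Pool.Agent.NPC Pool.Agent.H620R2.Gauge Pool.Agent.V8H57.CX
  Pool.Agent.V8H57.RX Pool.Agent.H591R3 Pool.Agent.H591R3.PHG MeasureTheory Filter

section

variable {X : Type} [Fintype X] [DecidableEq X] {r k : ℕ} {cs : List ℕ}
  {ad : Idx X cs → List Bool}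

/-- The computation gives the right answers for all inputs of the family. -/
def Ev (r : ℕ) (ad : Idx X cs → List Bool) (M' : Alg) (N mQ k : ℕ) (inp : X → List Bool)
    (O : Oracle) : Prop :=
  ∀ j, QF mQ (leaf M' N) k true (inp j) (pre N (AO O)) ≠ Tr cs (nv r ad O) j

theorem str_len {L : ℕ} (i : Fin (2 ^ (L + 1) - 1)) : (str i).length ≤ L := by
  rw [length_str]
  have h2 : (i : ℕ) + 1 < 2 ^ (L + 1) := by
    have := i.isLt
    omega
  have := Nat.log_lt_of_lt_pow (by omega) h2
  omega

theorem idx_lt' {q : List Bool} {L : ℕ} (h : q.length ≤ L) : idx q < 2 ^ (L + 1) - 1 := by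
  have h1 := idx_lt q
  have h2 : 2 ^ (q.length + 1) ≤ 2 ^ (L + 1) := Nat.pow_le_pow_right (by norm_num) (by omega)
  omega

open Classical in
/-- the bound for fixed coins of the hidden strings -/
theorem core (hr : 64 ≤ r) (hinj : Function.Injective ad) (hlen : ∀ g, (ad g).length = 7 * r ^ 2)
    (hhead : ∀ g, ∃ v, ad g = true :: v) (hcs : cs.length = k + 1) (O : Oracle)
    (hgood : ∀ g, ¬ badN O r (ad g)) (M' : Alg) {L mQ ℓ D g : ℕ} (hL : L ≤ 2 ^ r - 1)
    (inp : X → List Bool) (hinp : ∀ j, (inp j).length ≤ ℓ)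
    (hdep : M'.p.eval (ℓ + k * (2 * mQ + 1)) ≤ 2 ^ (2 * r))
    (hD : 2 ^ (2 * r) * Fintype.card X ≤ D) {w9 : ℝ}
    (hW : Ex (lawM (1 / 2 ^ (8 * (8 * r))) (1 / 2 ^ (4 * (8 * r))))
      (Wt (X := X) (1 / 2 ^ (4 * (8 * r))) (1 / 2 ^ (2 * (8 * r)))
        (8 * (8 * r) * 2 ^ (4 * (8 * r))) (1 / 256) D g cs) ≤ w9) :
    Ex (ber (1 / 2)) (fun z : Idx X cs × Fin (r ^ 2) → Bool =>
      if Ev r ad M' (2 ^ (L + 1) - 1) mQ k inp (Proj.owr (ps r ad) O z) then (1 : ℝ) else 0) ≤
      k * (2 ^ (ℓ + k * (2 * mQ + 1) + 2) * (1 / 2) ^ (2 ^ (2 * r) + 1)) +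
        (1 - 1 / 256) ^ g * (1 + 2 * (1 / 2 ^ (4 * (8 * r)))) ^ D + w9 := by
  set N := 2 ^ (L + 1) - 1 with hN
  set n := 8 * r with hn
  set t : ℝ := 1 / 2 ^ (4 * n) with ht
  have hn5 : 5 ≤ n := by omega
  have ht0 : 0 < t := by positivity
  have ht1 : t < 1 := by
    rw [ht, div_lt_one (by positivity)]
    exact one_lt_pow₀ (by norm_num) (by omega)
  -- the sets `U g`
  have hex : ∀ g, ∃ U : Finset (Fin (r ^ 2) → Bool), U ⊆ univ.filter
      (fun c : Fin (r ^ 2) → Bool => c ∉ Em (r ^ 2) ∧
        ∀ j < r, O (hc (ad g ++ List.ofFn c) j) = true) ∧ U.card = Nm r := by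
    intro g
    have h1 := hgood g
    unfold badN at h1
    exact Finset.exists_subset_card_eq (by omega)
  choose U hU1 hU2 using hex
  have hUE : ∀ g, ∀ c ∈ U g, c ∉ Em (r ^ 2) := fun g c hc =>
    (Finset.mem_filter.1 (hU1 g hc)).2.1
  have hUh : ∀ g, ∀ c ∈ U g, ∀ j < r, O (hc (ad g ++ List.ofFn c) j) = true := fun g c hc =>
    (Finset.mem_filter.1 (hU1 g hc)).2.2
  have hrr : 64 * r ≤ r ^ 2 := by nlinarith
  have hVc : (Fintype.card (Fin (r ^ 2) → Bool) : ℝ) = 2 ^ (r ^ 2) := by
    rw [Fintype.card_pi]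
    simp
  have hEc : ((Em (r ^ 2)).card : ℝ) = 2 ^ (r ^ 2 - 64 * r) := by
    rw [Em_card rfl hr]
    push_cast
    rfl
  have hq : ((Em (r ^ 2)).card : ℝ) / Fintype.card (Fin (r ^ 2) → Bool) = 1 / 2 ^ (8 * n) := by
    rw [hVc, hEc, div_eq_div_iff (by positivity) (by positivity), one_mul, ← pow_add]
    congr 1
    omega
  set E0 : ℝ := k * (2 ^ (ℓ + k * (2 * mQ + 1) + 2) * (1 / 2) ^ (2 ^ (2 * r) + 1)) +
        (1 - 1 / 256) ^ g * (1 + 2 * t) ^ D with hE0
  set W := Wt (X := X) t (1 / 2 ^ (2 * n)) (8 * n * 2 ^ (4 * n)) (1 / 256) D g cs with hWd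
  rw [Ex_curry]
  have hmix := mix (G := Idx X cs) ht0 ht1 (Em (r ^ 2)) U
    (fun g => Finset.disjoint_left.2 (hUE g)) (fun _ => true) (e0_mem r) (by
      intro g
      rw [hU2, hEc]
      unfold Nm
      have h1 : 1 ≤ 2 ^ (32 * r) := Nat.one_le_two_pow
      push_cast [Nat.cast_sub h1]
      rw [ht, show 4 * n = 32 * r by omega]
      field_simp) (fun y => if Ev r ad M' N mQ k inp (Oy ad O y) then (1 : ℝ) else 0) (by
      intro y
      have h1 : AO (Oy ad O (fun g => if y g ∈ Em (r ^ 2) then (fun _ => true) else y g)) =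
          AO (Oy ad O y) := by
        unfold AO
        rw [wld_inv hinj hlen O (y' := y)]
        intro g
        by_cases hy : y g ∈ Em (r ^ 2)
        · rw [if_pos hy]
          exact Or.inr ⟨e0_mem r, hy⟩
        · rw [if_neg hy]
          exact Or.inl rfl
      have h2 : Ev r ad M' N mQ k inp
          (Oy ad O (fun g => if y g ∈ Em (r ^ 2) then (fun _ => true) else y g)) ↔
          Ev r ad M' N mQ k inp (Oy ad O y) := by
        unfold Ev nv
        rw [h1]
      exact if_congr h2 rfl rfl) (fun s => E0 + W s) (by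
      intro c hc
      have h1 := main_ind (X := X) (n := n) (u := r) (D := D) (g := g) hn5 (by omega) hD k cs hcs
        (fun g => if c g ∈ U g then none else some false) mQ ℓ
        (fun y b => leaf M' N y (pre N (AO (Oy ad O (rep U c b))))) (by
          intro y hy
          have h2 := (dtr_out M' N y).mono ((eval_mono _ hy).trans hdep)
          refine Proj.DTr_co (φ := fun b => pre N (AO (Oy ad O (rep U c b)))) ?_ h2
          intro i
          exact co_rep hinj hlen O hUh c ((str_len i).trans hL)) inp hinp true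
      refine le_trans (le_of_eq ?_) h1
      unfold Ms
      congr 1
      funext b
      have h3 : Ev r ad M' N mQ k inp (Oy ad O (rep U c b)) ↔
          ∀ j, QF mQ (fun y b => leaf M' N y (pre N (AO (Oy ad O (rep U c b))))) k true (inp j) b ≠
            Tr cs (PHG.val (fun g => if c g ∈ U g then none else some false) b) j := by
        unfold Ev
        have h4 : nv r ad (Oy ad O (rep U c b)) =
            PHG.val (fun g => if c g ∈ U g then none else some false) b := by
          funext g
          rw [nv_eq hinj hlen hhead]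
          unfold PHG.val rep
          by_cases hcU : c g ∈ U g
          · cases hb : b g with
            | true => simp [hcU, e0_mem r]
            | false => simp [hcU, hc g]
          · simp [hcU, hc g]
        rw [h4]
        refine forall_congr' fun j => ?_
        rw [QF_comp mQ (leaf M' N) (fun b => pre N (AO (Oy ad O (rep U c b)))) k true (inp j) b]
      exact if_congr h3 rfl rfl)
  refine hmix.trans ?_
  rw [hq, Ex_add]
  have hinv := inv_lawM (n := n)
  rw [Ex_const hinv.sum]
  linarith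

open Classical in
/-- the bound for random coins -/
theorem ev_prob (hr : 64 ≤ r) (hinj : Function.Injective ad)
    (hlen : ∀ g, (ad g).length = 7 * r ^ 2)
    (hhead : ∀ g, ∃ v, ad g = true :: v) (hcs : cs.length = k + 1)
    (M' : Alg) {L mQ ℓ D g : ℕ} (hL : L ≤ 2 ^ r - 1)
    (inp : X → List Bool) (hinp : ∀ j, (inp j).length ≤ ℓ)
    (hdep : M'.p.eval (ℓ + k * (2 * mQ + 1)) ≤ 2 ^ (2 * r))
    (hD : 2 ^ (2 * r) * Fintype.card X ≤ D) {w9 : ℝ} (hw9 : 0 ≤ w9)
    (hW : Ex (lawM (1 / 2 ^ (8 * (8 * r))) (1 / 2 ^ (4 * (8 * r))))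
      (Wt (X := X) (1 / 2 ^ (4 * (8 * r))) (1 / 2 ^ (2 * (8 * r)))
        (8 * (8 * r) * 2 ^ (4 * (8 * r))) (1 / 256) D g cs) ≤ w9) :
    ranO {O | Ev r ad M' (2 ^ (L + 1) - 1) mQ k inp O ∧ ∀ g, ¬ badN O r (ad g)} ≤
      ENNReal.ofReal (k * (2 ^ (ℓ + k * (2 * mQ + 1) + 2) * (1 / 2) ^ (2 ^ (2 * r) + 1)) +
        (1 - 1 / 256) ^ g * (1 + 2 * (1 / 2 ^ (4 * (8 * r)))) ^ D + w9) := by
  refine resample (J := Idx X cs × Fin (r ^ 2)) _ (3 * (L + 8 * r ^ 2) + r + 2) ?_ (ps r ad)
    (ps_inj hinj) ?_ _ ?_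
  · rintro O O' h ⟨h1, h2⟩
    have hA : ∀ q : List Bool, q.length ≤ L + 8 * r ^ 2 → AO O q = AO O' q := fun q hq =>
      AO_loc (L := L + 8 * r ^ 2) (fun q hq => h q (by omega)) hq
    constructor
    · have h3 : pre (2 ^ (L + 1) - 1) (AO O) = pre (2 ^ (L + 1) - 1) (AO O') := by
        funext i
        exact hA _ ((str_len i).trans (by omega))
      have h4 : nv r ad O = nv r ad O' := by
        funext g
        unfold nv
        apply decide_eq_decide.2
        refine forall_congr' fun i => forall_congr' fun _ => ?_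
        rw [hA]
        rw [List.length_append, hlen, length_bitsOf]
        omega
      intro j
      rw [← h3, ← h4]
      exact h1 j
    · intro g
      have h3 := h2 g
      unfold badN at h3 ⊢
      have h4 : (univ.filter (fun c : Fin (r ^ 2) → Bool => c ∉ Em (r ^ 2) ∧
          ∀ j < r, O (hc (ad g ++ List.ofFn c) j) = true)) =
          univ.filter (fun c : Fin (r ^ 2) → Bool => c ∉ Em (r ^ 2) ∧
          ∀ j < r, O' (hc (ad g ++ List.ofFn c) j) = true) := by
        apply Finset.filter_congr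
        intro c _
        refine and_congr_right fun _ => forall_congr' fun j => forall_congr' fun hj => ?_
        rw [h]
        rw [length_hc, List.length_append, List.length_ofFn, hlen]
        omega
      rw [← h4]
      exact h3
  · rintro ⟨g, j⟩
    have := j.isLt
    unfold ps
    rw [length_yc, hlen]
    simp only
    omega
  · intro O
    by_cases hgood : ∀ g, ¬ badN O r (ad g)
    · refine le_trans (Ex_mono ber_half_nonneg fun z => ?_)
        (core hr hinj hlen hhead hcs O hgood M' hL inp hinp hdep hD hW)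
      by_cases hE : Ev r ad M' (2 ^ (L + 1) - 1) mQ k inp (Proj.owr (ps r ad) O z)
      · rw [if_pos hE]
        split_ifs <;> norm_num
      · rw [if_neg hE, if_neg (fun h => hE h.1)]
    · refine le_trans (Ex_mono ber_half_nonneg (G := fun _ => (0 : ℝ)) fun z => ?_) ?_
      · rw [if_neg]
        rintro ⟨-, h⟩
        apply hgood
        intro g hg
        apply h g
        unfold badN at hg ⊢
        have h4 : (univ.filter (fun c : Fin (r ^ 2) → Bool => c ∉ Em (r ^ 2) ∧
            ∀ j < r, Proj.owr (ps r ad) O z (hc (ad g ++ List.ofFn c) j) = true)) =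
            univ.filter (fun c : Fin (r ^ 2) → Bool => c ∉ Em (r ^ 2) ∧
            ∀ j < r, O (hc (ad g ++ List.ofFn c) j) = true) := by
          apply Finset.filter_congr
          intro c _
          refine and_congr_right fun _ => forall_congr' fun j => forall_congr' fun hj => ?_
          rw [Proj.owr_off]
          rintro ⟨p, hp⟩
          exact yc_ne_hc _ _ _ _ hp
        rw [h4]
        exact hg
      · rw [Ex_const ber_half_sum]
        positivity

end

end Pool.Agent.V8H38.OC
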