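import Pool.Agent.V8H38.OC.Null

/-!
# The oracle
-/

set_option autoImplicit false

namespace Pool.Agent.V8H38.OC

open Pool.Agent.NPC Pool.Agent.H620R2.Gauge Pool.Agent.V8H57.CX
  Pool.Agent.H591R3 Pool.Agent.H591R3.PHG MeasureTheory Filter

/-- the properties of the oracle -/
theorem exists_coins : ∃ O : Oracle, (∀ k : ℕ, ¬ IsSig (AO O) k (lang (k + 1) (AO O))) ∧
    ∀ e : ℕ, 1 ≤ (tt e).c → ∃ K : ℕ, ∀ x : ℕ,
      ¬ Ext (HF (wld O) e x) (NX (AO O) e x) (Qn (tt e).c K x.bits.length) [] := by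
  have h : ∀ᵐ O ∂ranO, ∀ e : ℕ, 1 ≤ (tt e).c → ∃ K : ℕ, ∀ x : ℕ,
      ¬ Ext (HF (wld O) e x) (NX (AO O) e x) (Qn (tt e).c K x.bits.length) [] := by
    rw [ae_all_iff]
    intro e
    by_cases he : 1 ≤ (tt e).c
    · filter_upwards [ae_path e he] with O hO _
      exact hO
    · exact Filter.Eventually.of_forall fun O h => absurd h he
  exact (ae_infinite.and h).exists

theorem main : ∃ A : Oracle,
    (∀ k : ℕ, ∃ L : Set (List Bool), IsPH A L ∧ ¬ InSigma A k L) ∧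
    ∃ S : Set (List Bool), InSigma A 0 S ∧
      ∀ (C : ℕ → ℕ → Prop) (ρ : ℕ → ℕ), IsOptProblemA A 0 C ρ → ∀ c : ℕ, 1 ≤ c →
        ∃ (M : CAlg) (K : ℕ), M.Computes S C ρ ∧
          ∀ (x : ℕ) (adv : Adversary), adv.Correct C ρ x →
            M.asks S adv x (M.p.eval x.bits.length) [] ≤
              x.bits.length / (c * Nat.size x.bits.length) + K := by
  obtain ⟨O, h1, h2⟩ := exists_coins
  refine ⟨AO O, fun k => ⟨lang (k + 1) (AO O), ?_, h1 k⟩, SW (wld O), inSigma_SW (wld O), ?_⟩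
  · obtain ⟨V, p, hV, hL⟩ := lang_sig (AO O) (k + 1)
    exact ⟨V, p, k + 1 + 1, hV, hL⟩
  · rintro C ρ ⟨⟨V, p, ⟨M, hM⟩, hC⟩, h0, -, ⟨F, ⟨N, hN⟩, hρ⟩⟩ c hc
    obtain ⟨e, he⟩ := tt_surj ⟨M, N, c⟩
    have hCe : (tt e).C (AO O) = C := by
      funext x y
      apply propext
      rw [hC x y, he]
      unfold Tk.C
      simp only [hM, Option.some.injEq, Quant]
    have hρe : (tt e).rho (AO O) = ρ := by
      funext y
      rw [he]
      unfold Tk.rho
      simp only [hN, Option.getD_some]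
      rw [hρ, num_bits]
    have hce : (tt e).c = c := by rw [he]
    obtain ⟨K, hK⟩ := h2 e (by omega)
    obtain ⟨M', h3, h4⟩ := computes_of_ext (wld O) (e := e) (fun x => by
      show (tt e).C (AO O) x 0
      rw [hCe]
      exact h0 x) hK
    have h5 : (tt e).C (orW (wld O)) = C := hCe
    have h6 : (tt e).rho (orW (wld O)) = ρ := hρe
    rw [h5, h6] at h3 h4
    refine ⟨M', 1 + K, h3, fun x adv hadv => ?_⟩
    have h7 := h4 x adv hadv (M'.p.eval x.bits.length)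
    rw [hce] at h7
    unfold Qn at h7
    omega

end Pool.Agent.V8H38.OC
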