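import Pool.Agent.V8H38.OC.Good
import Pool.Agent.H620R2.Gauge.Event

/-!
# The nodes
-/

set_option autoImplicit false

namespace Pool.Agent.V8H38.OC

open Finset H568R2 Pool.Agent.H676 Pool.Agent.NPC Pool.Agent.H620R2.Gauge Pool.Agent.V8H57.CX
  Pool.Agent.V8H57.RX Pool.Agent.H591R3 Pool.Agent.H591R3.PHG MeasureTheory Filter

section

variable {G : Type} [Fintype G] [DecidableEq G] {r : ℕ} {ad : G → List Bool}

/-- the coins of the nodes -/
def ps (r : ℕ) (ad : G → List Bool) (p : G × Fin (r ^ 2)) : List Bool := yc (ad p.1) p.2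

/-- the coins with the strings `y` for the nodes -/
noncomputable def Oy (ad : G → List Bool) (O : Oracle) (y : G → Fin (r ^ 2) → Bool) : Oracle :=
  Proj.owr (ps r ad) O (fun p => y p.1 p.2)

omit [Fintype G] [DecidableEq G] in
theorem ps_inj (hinj : Function.Injective ad) : Function.Injective (ps r ad) := by
  rintro ⟨g, j⟩ ⟨g', j'⟩ h
  obtain ⟨h1, h2⟩ := yc_inj h
  simp only at h1 h2
  rw [hinj h1, Fin.ext h2]

omit [Fintype G] [DecidableEq G] in
theorem Oy_hc (O : Oracle) (y : G → Fin (r ^ 2) → Bool) (v : List Bool) (j : ℕ) :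
    Oy ad O y (hc v j) = O (hc v j) := by
  unfold Oy
  rw [Proj.owr_off]
  rintro ⟨p, hp⟩
  exact yc_ne_hc _ _ _ _ hp

omit [Fintype G] [DecidableEq G] in
theorem ys_node (hinj : Function.Injective ad) (hlen : ∀ g, (ad g).length = 7 * r ^ 2)
    (O : Oracle) (y : G → Fin (r ^ 2) → Bool) (g : G) :
    ys (Oy ad O y) (ad g) = List.ofFn (y g) := by
  have hl : (ad g).length / 7 = r ^ 2 := by rw [hlen]; omega
  apply List.ext_getElem
  · unfold ys
    rw [List.length_map, List.length_range, List.length_ofFn, hl]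
  · intro j h1 h2
    rw [List.length_ofFn] at h2
    simp only [ys, List.getElem_map, List.getElem_range, List.getElem_ofFn]
    exact Proj.owr_e (ps_inj hinj) O (fun p => y p.1 p.2) (g, ⟨j, h2⟩)

omit [Fintype G] [DecidableEq G] in
theorem ys_other (O : Oracle) (y : G → Fin (r ^ 2) → Bool) {a : List Bool}
    (ha : ∀ g, a ≠ ad g) : ys (Oy ad O y) a = ys O a := by
  apply ys_congr
  intro j _
  unfold Oy
  rw [Proj.owr_off]
  rintro ⟨p, hp⟩
  exact ha p.1 (yc_inj hp).1.symm

omit [Fintype G] [DecidableEq G] in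
theorem hid_Oy (O : Oracle) (y : G → Fin (r ^ 2) → Bool) :
    (wld (Oy ad O y)).hid = (wld O).hid := by
  funext ℓ v
  simp only [wld, Oy_hc]

omit [Fintype G] [DecidableEq G] in
theorem pos_node (hinj : Function.Injective ad) (hlen : ∀ g, (ad g).length = 7 * r ^ 2)
    (O : Oracle) (y : G → Fin (r ^ 2) → Bool) (g : G) {s : List Bool} (hs : s.length = r ^ 2) :
    (wld (Oy ad O y)).pos (ad g ++ s) = !(decide (s = List.ofFn (y g)) && !(emp s)) := by
  have h1 : (ad g ++ s).length = 8 * r ^ 2 := by rw [List.length_append, hlen, hs]; ring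
  have h2 : 7 * ((ad g ++ s).length / 8) = (ad g).length := by rw [h1, hlen]; omega
  simp only [wld]
  unfold plant
  rw [h2, List.take_left, List.drop_left, ys_node hinj hlen]
  have h3 : (8 ∣ (ad g ++ s).length) := by rw [h1]; exact dvd_mul_right _ _
  simp only [h3, decide_true, Bool.true_and]

omit [Fintype G] [DecidableEq G] in
theorem pos_other (hlen : ∀ g, (ad g).length = 7 * r ^ 2)
    (O : Oracle) (y : G → Fin (r ^ 2) → Bool) {q : List Bool}
    (hq : ∀ (g : G) (s : List Bool), s.length = r ^ 2 → q ≠ ad g ++ s) :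
    (wld (Oy ad O y)).pos q = (wld O).pos q := by
  simp only [wld]
  congr 1
  by_cases h8 : 8 ∣ q.length
  · apply plant_congr
    apply ys_other
    intro g hg
    obtain ⟨m, hm⟩ := h8
    have h1 : q.length / 8 = m := by omega
    rw [h1] at hg
    have h2 : (q.take (7 * m)).length = 7 * m := by
      rw [List.length_take]
      omega
    have h3 : m = r ^ 2 := by
      have := congrArg List.length hg
      rw [h2, hlen] at this
      omega
    apply hq g (q.drop (7 * m))
    · rw [List.length_drop]
      omega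
    · rw [← hg, List.take_append_drop]
  · unfold plant
    simp [h8]

omit [Fintype G] [DecidableEq G] in
theorem AO_head {O : Oracle} {q : List Bool} (h : ∃ v, q = true :: v) : AO O q = (wld O).pos q := by
  obtain ⟨v, rfl⟩ := h
  unfold AO orW
  simp only [full]

/-- the value of a node -/
noncomputable def nv (r : ℕ) (ad : G → List Bool) (O : Oracle) (g : G) : Bool :=
  decide (∀ i < 2 ^ (r ^ 2), AO O (ad g ++ bitsOf (r ^ 2) i) = true)

omit [Fintype G] [DecidableEq G] in
theorem nv_eq (hinj : Function.Injective ad) (hlen : ∀ g, (ad g).length = 7 * r ^ 2)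
    (hhead : ∀ g, ∃ v, ad g = true :: v) (O : Oracle) (y : G → Fin (r ^ 2) → Bool) (g : G) :
    nv r ad (Oy ad O y) g = decide (y g ∈ Em (r ^ 2)) := by
  obtain ⟨v, hv⟩ := hhead g
  unfold nv
  apply decide_eq_decide.2
  have h1 : ∀ i, AO (Oy ad O y) (ad g ++ bitsOf (r ^ 2) i) =
      !(decide (bitsOf (r ^ 2) i = List.ofFn (y g)) && !(emp (bitsOf (r ^ 2) i))) := by
    intro i
    rw [AO_head ⟨v ++ bitsOf (r ^ 2) i, by rw [hv]; rfl⟩,
      pos_node hinj hlen O y g (length_bitsOf _ _)]
  simp only [h1]
  unfold Em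
  rw [Finset.mem_filter]
  constructor
  · intro h
    refine ⟨Finset.mem_univ _, ?_⟩
    obtain ⟨i, hi, h2⟩ := exists_bitsOf (List.ofFn (y g))
    rw [List.length_ofFn] at hi h2
    have h3 := h i hi
    rw [h2] at h3
    simpa using h3
  · rintro ⟨-, h⟩ i _
    by_cases h2 : bitsOf (r ^ 2) i = List.ofFn (y g)
    · rw [h2, h]
      simp
    · simp [h2]

omit [Fintype G] [DecidableEq G] in
theorem wld_inv (hinj : Function.Injective ad) (hlen : ∀ g, (ad g).length = 7 * r ^ 2)
    (O : Oracle) {y y' : G → Fin (r ^ 2) → Bool}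
    (h : ∀ g, y g = y' g ∨ (y g ∈ Em (r ^ 2) ∧ y' g ∈ Em (r ^ 2))) :
    wld (Oy ad O y) = wld (Oy ad O y') := by
  have h1 : (wld (Oy ad O y)).pos = (wld (Oy ad O y')).pos := by
    funext q
    by_cases hq : ∀ (g : G) (s : List Bool), s.length = r ^ 2 → q ≠ ad g ++ s
    · rw [pos_other hlen O y hq, pos_other hlen O y' hq]
    · push Not at hq
      obtain ⟨g, s, hs, rfl⟩ := hq
      rw [pos_node hinj hlen O y g hs, pos_node hinj hlen O y' g hs]
      rcases h g with h2 | ⟨h2, h3⟩
      · rw [h2]
      · unfold Em at h2 h3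
        rw [Finset.mem_filter] at h2 h3
        congr 1
        by_cases h4 : s = List.ofFn (y g)
        · rw [h4, h2.2]
          simp
        · by_cases h5 : s = List.ofFn (y' g)
          · rw [h5, h3.2]
            simp
          · simp [h4, h5]
  have h2 := hid_Oy (ad := ad) O y
  have h3 := hid_Oy (ad := ad) O y'
  have : ∀ W W' : World, W.pos = W'.pos → W.hid = W'.hid → W = W' := by
    rintro ⟨p, q⟩ ⟨p', q'⟩ h1 h2
    simp only at h1 h2
    rw [h1, h2]
  exact this _ _ h1 (h2.trans h3.symm)

/-- the undetermined nodes draw `e0` or their own string -/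
def rep (U : G → Finset (Fin (r ^ 2) → Bool)) (c : G → Fin (r ^ 2) → Bool) (b : G → Bool) :
    G → Fin (r ^ 2) → Bool :=
  fun g => if c g ∈ U g ∧ b g = true then (fun _ => true) else c g

theorem e0_mem (r : ℕ) : (fun _ => true : Fin (r ^ 2) → Bool) ∈ Em (r ^ 2) := by
  unfold Em
  rw [Finset.mem_filter]
  refine ⟨Finset.mem_univ _, ?_⟩
  unfold emp
  rw [List.all_eq_true]
  intro b hb
  have h1 := List.mem_of_mem_take hb
  rw [List.mem_ofFn] at h1
  obtain ⟨j, hj⟩ := h1
  rw [← hj]
  rfl

/-- the value at a position of a node, when the node draws `y` -/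
theorem size_pow (r : ℕ) : Nat.size (2 ^ r - 1) = r := by
  rcases Nat.eq_zero_or_pos r with h | h
  · subst h; rfl
  · apply le_antisymm
    · rw [Nat.size_le]
      have : 0 < 2 ^ r := by positivity
      omega
    · by_contra hcon
      push Not at hcon
      have h1 := Nat.size_le.1 (Nat.le_pred_of_lt hcon)
      have h2 : 2 ^ r = 2 * 2 ^ (r - 1) := by
        rw [← pow_succ']
        congr 1
        omega
      have h3 : 0 < 2 ^ (r - 1) := by positivity
      have h4 : r.pred = r - 1 := rfl
      rw [h4] at h1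
      omega

omit [Fintype G] [DecidableEq G] in
theorem pos_rep (hinj : Function.Injective ad) (hlen : ∀ g, (ad g).length = 7 * r ^ 2)
    (O : Oracle) {U : G → Finset (Fin (r ^ 2) → Bool)}
    (hU : ∀ g, ∀ c ∈ U g, ∀ j < r, O (hc (ad g ++ List.ofFn c) j) = true)
    (c : G → Fin (r ^ 2) → Bool) (b b' : G → Bool) {q : List Bool}
    (hq : (wld O).hid (2 ^ r - 1) q = false) :
    (wld (Oy ad O (rep U c b))).pos q = (wld (Oy ad O (rep U c b'))).pos q := by
  by_cases hq2 : ∀ (g : G) (s : List Bool), s.length = r ^ 2 → q ≠ ad g ++ s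
  · rw [pos_other hlen O _ hq2, pos_other hlen O _ hq2]
  · push Not at hq2
    obtain ⟨g, s, hs, rfl⟩ := hq2
    rw [pos_node hinj hlen O _ g hs, pos_node hinj hlen O _ g hs]
    by_cases hc : c g ∈ U g
    · have hne : s ≠ List.ofFn (c g) := by
        intro h
        rw [h] at hq
        simp only [wld, decide_eq_false_iff_not] at hq
        apply hq
        rw [size_pow]
        exact hU g (c g) hc
      have key : ∀ b : G → Bool,
          (!(decide (s = List.ofFn (rep U c b g)) && !(emp s))) = true := by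
        intro b
        unfold rep
        split_ifs with h
        · by_cases h2 : s = List.ofFn (fun _ : Fin (r ^ 2) => true)
          · have h3 := e0_mem r
            unfold Em at h3
            rw [Finset.mem_filter] at h3
            rw [h2, h3.2]
            simp
          · rw [decide_eq_false h2]
            rfl
        · rw [decide_eq_false hne]
          rfl
      rw [key b, key b']
    · have : ∀ b : G → Bool, rep U c b g = c g := by
        intro b
        unfold rep
        rw [if_neg (fun h => hc h.1)]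
      rw [this b, this b']

omit [Fintype G] [DecidableEq G] in
theorem KW_rep (hinj : Function.Injective ad) (hlen : ∀ g, (ad g).length = 7 * r ^ 2)
    (O : Oracle) {U : G → Finset (Fin (r ^ 2) → Bool)}
    (hU : ∀ g, ∀ c ∈ U g, ∀ j < r, O (hc (ad g ++ List.ofFn c) j) = true)
    (c : G → Fin (r ^ 2) → Bool) (b b' : G → Bool) {w : List Bool} (hw : w.length ≤ 2 ^ r - 1) :
    KW (wld (Oy ad O (rep U c b))) w = KW (wld (Oy ad O (rep U c b'))) w := by
  refine KO_congr (L := 2 ^ r - 1) ?_ ?_ w hw
  · intro v _ j _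
    rw [Oy_hc, Oy_hc]
  · intro q _ hq
    rw [hid_Oy] at hq
    exact pos_rep hinj hlen O hU c b b' hq

omit [Fintype G] [DecidableEq G] in
/-- every bit of the oracle depends on at most one of the undetermined nodes -/
theorem co_rep (hinj : Function.Injective ad) (hlen : ∀ g, (ad g).length = 7 * r ^ 2)
    (O : Oracle) {U : G → Finset (Fin (r ^ 2) → Bool)}
    (hU : ∀ g, ∀ c ∈ U g, ∀ j < r, O (hc (ad g ++ List.ofFn c) j) = true)
    (c : G → Fin (r ^ 2) → Bool) {q : List Bool} (hq : q.length ≤ 2 ^ r - 1) :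
    (∃ b0, ∀ b : G → Bool, AO (Oy ad O (rep U c b)) q = b0) ∨
      ∃ (g : G) (u : Bool → Bool), ∀ b : G → Bool, AO (Oy ad O (rep U c b)) q = u (b g) := by
  rcases q with _ | ⟨b1, v⟩
  · left
    refine ⟨false, fun b => ?_⟩
    unfold AO orW
    simp only [full]
  · cases b1 with
    | false =>
      left
      refine ⟨AO (Oy ad O (rep U c (fun _ => true))) (false :: v), fun b => ?_⟩
      unfold AO orW
      simp only [full]
      rw [List.length_cons] at hq
      exact KW_rep hinj hlen O hU c b (fun _ => true) (by omega)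
    | true =>
      by_cases hq2 : ∀ (g : G) (s : List Bool), s.length = r ^ 2 → true :: v ≠ ad g ++ s
      · left
        refine ⟨(wld O).pos (true :: v), fun b => ?_⟩
        rw [AO_head ⟨v, rfl⟩, pos_other hlen O _ hq2]
      · right
        push Not at hq2
        obtain ⟨g, s, hs, hgs⟩ := hq2
        refine ⟨g, fun bb => !(decide (s = List.ofFn (if c g ∈ U g ∧ bb = true then
          (fun _ => true) else c g)) && !(emp s)), fun b => ?_⟩
        rw [AO_head ⟨v, rfl⟩, hgs, pos_node hinj hlen O _ g hs]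
        rfl

end

end Pool.Agent.V8H38.OC
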