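import Pool.Agent.V8H38.OC.Fam

/-!
# Almost surely the hard languages are hard
-/

set_option autoImplicit false

namespace Pool.Agent.V8H38.OC

open Finset H568R2 Pool.Agent.H676 Pool.Agent.NPC Pool.Agent.H620R2.Gauge Pool.Agent.V8H57.CX
  Pool.Agent.H591R3 Pool.Agent.H591R3.PHG MeasureTheory Filter

theorem exp_half : Real.exp (-1) ≤ 1 / 2 := by
  rw [Real.exp_neg, one_div]
  apply inv_anti₀ (by norm_num)
  have := Real.add_one_le_exp (1 : ℝ)
  linarith

/-- the nodes without many hidden strings are very rare -/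
theorem bad_any {r : ℕ} (hr : 64 ≤ r) :
    ranO {O | ∃ a : List Bool, a.length = 7 * r ^ 2 ∧ badN O r a} ≤
      ENNReal.ofReal ((1 / 2) ^ r) := by
  have hsub : {O | ∃ a : List Bool, a.length = 7 * r ^ 2 ∧ badN O r a} ⊆
      ⋃ s : Fin (7 * r ^ 2) → Bool, {O | badN O r (List.ofFn s)} := by
    rintro O ⟨a, ha, hb⟩
    refine Set.mem_iUnion.2 ⟨fun i => a[i.val]'(by rw [ha]; exact i.isLt), ?_⟩
    have h1 : List.ofFn (fun i : Fin (7 * r ^ 2) => a[i.val]'(by rw [ha]; exact i.isLt)) = a := by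
      apply List.ext_getElem
      · rw [List.length_ofFn, ha]
      · intro i h1 h2
        rw [List.getElem_ofFn]
    show badN O r _
    rw [h1]
    exact hb
  refine (measure_mono hsub).trans ((measure_iUnion_fintype_le _ _).trans ?_)
  refine (Finset.sum_le_sum fun s _ => bad_node hr (List.ofFn s)).trans ?_
  rw [Finset.sum_const, nsmul_eq_mul, Finset.card_univ, Fintype.card_pi]
  have hc : (∏ _i : Fin (7 * r ^ 2), Fintype.card Bool) = 2 ^ (7 * r ^ 2) := by simp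
  rw [hc, ← ENNReal.ofReal_natCast, ← ENNReal.ofReal_mul (by positivity)]
  apply ENNReal.ofReal_le_ofReal
  have h1 : 7 * r ^ 2 + r ≤ 2 ^ (r ^ 2 - 32 * r) := by
    have e1 : r ≤ 2 ^ r := Nat.lt_two_pow_self.le
    have e2 : r ^ 2 ≤ 2 ^ (2 * r) := by
      calc r ^ 2 ≤ (2 ^ r) ^ 2 := Nat.pow_le_pow_left e1 2
        _ = 2 ^ (2 * r) := by rw [← pow_mul]; congr 1; ring
    have e3 : 2 ^ (2 * r + 3) ≤ 2 ^ (r ^ 2 - 32 * r) := by
      apply Nat.pow_le_pow_right (by norm_num)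
      have : 64 * r ≤ r ^ 2 := by nlinarith
      omega
    have e4 : 2 ^ (2 * r + 3) = 8 * 2 ^ (2 * r) := by rw [pow_add]; ring
    have e5 : r ≤ r ^ 2 := by nlinarith
    omega
  have h2 : Real.exp (-(2 ^ (r ^ 2 - 32 * r) : ℝ)) ≤ (1 / 2) ^ (7 * r ^ 2 + r) := by
    calc Real.exp (-(2 ^ (r ^ 2 - 32 * r) : ℝ)) = (Real.exp (-1)) ^ (2 ^ (r ^ 2 - 32 * r)) := by
          rw [← Real.exp_nat_mul]
          congr 1
          push_cast
          ring
      _ ≤ (1 / 2) ^ (2 ^ (r ^ 2 - 32 * r)) := pow_le_pow_left₀ (Real.exp_pos _).le exp_half _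
      _ ≤ (1 / 2) ^ (7 * r ^ 2 + r) := pow_le_pow_of_le_one (by norm_num) (by norm_num) h1
  calc ((2 ^ (7 * r ^ 2) : ℕ) : ℝ) * Real.exp (-(2 ^ (r ^ 2 - 32 * r) : ℝ))
      ≤ 2 ^ (7 * r ^ 2) * (1 / 2) ^ (7 * r ^ 2 + r) := by
        push_cast
        exact mul_le_mul_of_nonneg_left h2 (by positivity)
    _ = (2 * (1 / 2)) ^ (7 * r ^ 2) * (1 / 2) ^ r := by rw [mul_pow, pow_add]; ring
    _ = (1 / 2) ^ r := by norm_num

/-- the numbers -/
theorem num_le {r k R : ℕ} (hr : 64 ≤ r) (hR : k + R + 2 + r ≤ 2 ^ r) :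
    (k : ℝ) * (2 ^ (R + 2) * (1 / 2) ^ (2 ^ (2 * r) + 1)) +
      (1 - 1 / 256) ^ r * (1 + 2 * (1 / 2 ^ (4 * (8 * r)))) ^ (2 ^ (2 * r) * (4 * r)) +
        (9 / 10) ^ (4 * r) ≤ 4 * (255 / 256) ^ r := by
  have h0 : (0 : ℝ) < (255 / 256) ^ r := by positivity
  have t1 : (k : ℝ) * (2 ^ (R + 2) * (1 / 2) ^ (2 ^ (2 * r) + 1)) ≤ (255 / 256) ^ r := by
    have a1 : (k : ℝ) ≤ 2 ^ k := by exact_mod_cast (Nat.lt_two_pow_self (n := k)).le
    have a2 : 2 ^ r ≤ 2 ^ (2 * r) := Nat.pow_le_pow_right (by norm_num) (by omega)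
    calc (k : ℝ) * (2 ^ (R + 2) * (1 / 2) ^ (2 ^ (2 * r) + 1))
        ≤ 2 ^ k * (2 ^ (R + 2) * (1 / 2) ^ (k + (R + 2) + r)) := by
          gcongr ?_ * (2 ^ (R + 2) * ?_)
          exact pow_le_pow_of_le_one (by norm_num) (by norm_num) (by omega)
      _ = (2 * (1 / 2)) ^ k * (2 * (1 / 2)) ^ (R + 2) * (1 / 2) ^ r := by
          rw [mul_pow, mul_pow, pow_add, pow_add]
          ring
      _ = (1 / 2) ^ r := by norm_num
      _ ≤ (255 / 256) ^ r := pow_le_pow_left₀ (by norm_num) (by norm_num) r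
  have t2 : (1 - 1 / 256 : ℝ) ^ r * (1 + 2 * (1 / 2 ^ (4 * (8 * r)))) ^ (2 ^ (2 * r) * (4 * r)) ≤
      2 * (255 / 256) ^ r := by
    set x : ℝ := 2 * (1 / 2 ^ (4 * (8 * r))) with hx
    have hx0 : 0 ≤ x := by positivity
    have b1 : (1 + x) ^ (2 ^ (2 * r) * (4 * r)) ≤ Real.exp (x * ((2 ^ (2 * r) * (4 * r) : ℕ) : ℝ)) := by
      calc (1 + x) ^ (2 ^ (2 * r) * (4 * r)) ≤ (Real.exp x) ^ (2 ^ (2 * r) * (4 * r)) := by
            apply pow_le_pow_left₀ (by positivity)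
            have := Real.add_one_le_exp x
            linarith
        _ = _ := by
            rw [← Real.exp_nat_mul]
            congr 1
            ring
    have b2 : x * ((2 ^ (2 * r) * (4 * r) : ℕ) : ℝ) ≤ 1 / 2 := by
      have c1 : 16 * (2 ^ (2 * r) * r) ≤ 2 ^ (4 * (8 * r)) := by
        have e1 : r ≤ 2 ^ r := Nat.lt_two_pow_self.le
        calc 16 * (2 ^ (2 * r) * r) ≤ 2 ^ 4 * (2 ^ (2 * r) * 2 ^ r) := by
              have := Nat.mul_le_mul_left (2 ^ (2 * r)) e1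
              omega
          _ = 2 ^ (4 + (2 * r + r)) := by rw [pow_add, pow_add]
          _ ≤ 2 ^ (4 * (8 * r)) := Nat.pow_le_pow_right (by norm_num) (by omega)
      have c2 : (16 : ℝ) * (2 ^ (2 * r) * r) ≤ 2 ^ (4 * (8 * r)) := by exact_mod_cast c1
      have c3 : (0 : ℝ) < 2 ^ (4 * (8 * r)) := by positivity
      rw [hx]
      push_cast
      rw [mul_one_div, div_mul_eq_mul_div, div_le_iff₀ c3]
      linarith
    have b3 : Real.exp (1 / 2) ≤ 2 := by
      have h1 : Real.exp (1 / 2) * Real.exp (1 / 2) = Real.exp 1 := by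
        rw [← Real.exp_add]
        norm_num
      have h2 := Real.exp_one_lt_d9
      have h3 := Real.exp_pos (1 / 2)
      nlinarith
    have b4 : (1 + x) ^ (2 ^ (2 * r) * (4 * r)) ≤ 2 :=
      b1.trans ((Real.exp_le_exp.2 b2).trans b3)
    have b5 : (1 - 1 / 256 : ℝ) = 255 / 256 := by norm_num
    rw [b5, mul_comm]
    exact mul_le_mul_of_nonneg_right b4 h0.le
  have t3 : ((9 : ℝ) / 10) ^ (4 * r) ≤ (255 / 256) ^ r := by
    rw [pow_mul]
    apply pow_le_pow_left₀ (by positivity)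
    norm_num
  linarith

/-- the bound for the lengths -/
noncomputable def Rh (k : ℕ) (p : Polynomial ℕ) : Polynomial ℕ :=
  Polynomial.X + Polynomial.C k * (Polynomial.C 2 * p + Polynomial.C 1)

/-- the sum of everything -/
noncomputable def totB (k : ℕ) (M' : Alg) (p qb : Polynomial ℕ) : Polynomial ℕ :=
  (qb.comp (Rh k p) + Rh k p + M'.p.comp (Rh k p)).comp (Polynomial.C 7 * Polynomial.X ^ 2) +
    Polynomial.X + Polynomial.C (k + 3)

theorem badL_le (k : ℕ) (M' : Alg) (p : Polynomial ℕ) : ∃ P : Polynomial ℕ,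
    ∀ r : ℕ, 64 ≤ r → 1000 * (k + 2) ≤ r → P.eval r ≤ 2 ^ r →
      ranO (BadL k M' p) ≤ ENNReal.ofReal (5 * (255 / 256) ^ r) := by
  obtain ⟨qb, hqb⟩ := M'.out_local
  refine ⟨totB k M' p qb, fun r hr hrk hP => ?_⟩
  obtain ⟨as, hk, ha, hsz⟩ := exists_sizes' (n := 8 * r) (by omega) k _ inv_lawM
  have hsum : as.sum ≤ (k + 1) * (64 * (8 * r)) := by
    have := List.sum_le_card_nsmul as (64 * (8 * r)) (fun a h => (ha a h).2)
    rw [hk, smul_eq_mul] at this
    exact this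
  have hS : 3 * as.sum + k + 5 ≤ 5 * r ^ 2 := by nlinarith
  set ℓ := 7 * r ^ 2 - as.sum with hℓ
  set R := ℓ + k * (2 * p.eval ℓ + 1) with hR
  set L := qb.eval R with hL
  -- the numbers
  have hRe : R = (Rh k p).eval ℓ := by
    simp [hR, Rh]
  have hR' : R ≤ (Rh k p).eval (7 * r ^ 2) := by
    rw [hRe]
    exact eval_mono _ (Nat.sub_le _ _)
  have htot : L + R + M'.p.eval R + r + (k + 3) ≤ 2 ^ r := by
    have h1 : (totB k M' p qb).eval r = qb.eval ((Rh k p).eval (7 * r ^ 2)) +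
        (Rh k p).eval (7 * r ^ 2) + M'.p.eval ((Rh k p).eval (7 * r ^ 2)) + r + (k + 3) := by
      simp [totB, Polynomial.eval_comp]
    have h2 := eval_mono qb hR'
    have h3 := eval_mono M'.p hR'
    omega
  have hZ : 4 * r ≤ 2 ^ Zl r k as := by
    have h1 : r ≤ Zl r k as := by
      unfold Zl
      have h2 : 3 * as.sum + k + 5 + r ≤ 5 * r ^ 2 := by nlinarith
      omega
    calc 4 * r ≤ 2 ^ r := by
          have h2 : r - 2 + 1 ≤ 2 ^ (r - 2) := Nat.lt_two_pow_self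
          have h3 : 2 ^ r = 4 * 2 ^ (r - 2) := by
            rw [show (4 : ℕ) = 2 ^ 2 by norm_num, ← pow_add]
            congr 1
            omega
          have h4 : r ≤ 2 ^ (r - 2) := by
            obtain ⟨s, rfl⟩ : ∃ s, r = s + 4 := ⟨r - 4, by omega⟩
            have h5 : s + 1 ≤ 2 ^ s := Nat.lt_two_pow_self
            have h6 : s + 4 - 2 = s + 2 := by omega
            rw [h6, pow_add]
            omega
          omega
      _ ≤ 2 ^ Zl r k as := Nat.pow_le_pow_right (by norm_num) h1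
  have h64 : 2 ^ r ≤ 2 ^ (2 * r) := Nat.pow_le_pow_right (by norm_num) (by omega)
  have hW := hsz (Fin (4 * r)) (2 ^ (2 * r) * (4 * r)) r (by
    have e1 : r ≤ 2 ^ r := Nat.lt_two_pow_self.le
    calc 16 * (2 ^ (2 * r) * (4 * r)) = 2 ^ 6 * (2 ^ (2 * r) * r) := by ring
      _ ≤ 2 ^ 6 * (2 ^ (2 * r) * 2 ^ r) := by gcongr
      _ = 2 ^ (6 + (2 * r + r)) := by rw [pow_add, pow_add]
      _ ≤ 2 ^ (4 * (8 * r)) := Nat.pow_le_pow_right (by norm_num) (by omega)) (by
    rw [Fintype.card_fin])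
  rw [Fintype.card_fin] at hW
  have hprob := ev_prob (X := Fin (4 * r)) (r := r) (k := k) (cs := pw as) (ad := adr r k as) hr
    (adr_inj hk hS hZ) (adr_len hk hS) (adr_head (by omega) (fun a h => (ha a h).1))
    (by rw [pw, List.length_map, hk]) M' (L := L) (mQ := p.eval ℓ) (ℓ := ℓ)
    (D := 2 ^ (2 * r) * (4 * r)) (g := r) (by omega) (inp r k as)
    (fun j => (inp_len hk hS j).le) (by rw [← hR]; omega) (by rw [Fintype.card_fin])
    (w9 := (9 / 10) ^ (4 * r)) (by positivity) hW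
  have hsub : BadL k M' p ⊆ {O | Ev r (adr r k as) M' (2 ^ (L + 1) - 1) (p.eval ℓ) k
      (inp r k as) O ∧ ∀ g, ¬ badN O r (adr r k as g)} ∪
      {O | ∃ a : List Bool, a.length = 7 * r ^ 2 ∧ badN O r a} := by
    intro O hO
    have h1 := bad_ev hk hS hqb hO
    by_cases h2 : ∀ g, ¬ badN O r (adr r k as g)
    · exact Or.inl ⟨h1, h2⟩
    · push Not at h2
      obtain ⟨g, hg⟩ := h2
      exact Or.inr ⟨_, adr_len hk hS g, hg⟩
  refine (measure_mono hsub).trans ((measure_union_le _ _).trans ?_)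
  refine (add_le_add hprob (bad_any hr)).trans ?_
  rw [← ENNReal.ofReal_add (by positivity) (by positivity)]
  apply ENNReal.ofReal_le_ofReal
  have h1 := num_le (k := k) (R := R) hr (by omega)
  have h2 : ((1 : ℝ) / 2) ^ r ≤ (255 / 256) ^ r :=
    pow_le_pow_left₀ (by norm_num) (by norm_num) r
  linarith

theorem badL_null (k : ℕ) (M' : Alg) (p : Polynomial ℕ) : ranO (BadL k M' p) = 0 := by
  obtain ⟨P, hP⟩ := badL_le k M' p
  have hlim : Tendsto (fun r : ℕ => ENNReal.ofReal (5 * (255 / 256) ^ r)) atTop (nhds 0) := by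
    rw [← ENNReal.ofReal_zero]
    apply ENNReal.tendsto_ofReal
    have := (tendsto_pow_atTop_nhds_zero_of_lt_one (r := (255 / 256 : ℝ)) (by norm_num)
      (by norm_num)).const_mul 5
    simpa using this
  refine le_antisymm (ge_of_tendsto hlim ?_) bot_le
  filter_upwards [poly_ev P, eventually_ge_atTop 64, eventually_ge_atTop (1000 * (k + 2))] with
    r h1 h2 h3
  exact hP r h2 h3 h1

/-- Almost surely the polynomial hierarchy is infinite. -/
theorem ae_infinite : ∀ᵐ O ∂ranO, ∀ k : ℕ, ¬ IsSig (AO O) k (lang (k + 1) (AO O)) := by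
  have := countable_polynomial
  have h : ∀ᵐ O ∂ranO, ∀ (k : ℕ) (M' : Alg) (p : Polynomial ℕ), O ∉ BadL k M' p := by
    rw [ae_all_iff]
    intro k
    rw [ae_all_iff]
    intro M'
    rw [ae_all_iff]
    intro p
    exact measure_eq_zero_iff_ae_notMem.1 (badL_null k M' p)
  filter_upwards [h] with O hO k
  rintro ⟨V, p, ⟨M', hM'⟩, hL⟩
  exact hO k M' p ⟨V, hM', hL⟩

end Pool.Agent.V8H38.OC
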