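import Pool.Agent.V8H38.OC.Coin

/-!
# Long paths of hidden strings are rare
-/

set_option autoImplicit false

namespace Pool.Agent.V8H38.OC

open Finset H568R2 Pool.Agent.H676 Pool.Agent.NPC Pool.Agent.H620R2.Gauge Pool.Agent.V8H57.CX
  Pool.Agent.V8H57.RX Pool.Agent.H591R3 Pool.Agent.H591R3.PHG MeasureTheory Filter

theorem ber_half_nonneg (b : Bool) : 0 ≤ ber (1 / 2) b := by
  unfold ber
  split_ifs <;> norm_num

theorem ber_half_sum : ∑ b, ber (1 / 2) b = 1 := by
  rw [Fintype.sum_bool]
  unfold ber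
  norm_num

/-- the hidden strings given by the coins `z` -/
def Hz {N Δ : ℕ} (z : Fin N × Fin Δ → Bool) (q : List Bool) : Prop :=
  ∃ h : idx q < N, ∀ j : Fin Δ, z (⟨idx q, h⟩, j) = true

open Classical in
/-- the probability that all coins of a set are true -/
theorem Ex_all {I : Type} [Fintype I] [DecidableEq I] (Z : Finset I) :
    Ex (ber (1 / 2)) (fun z : I → Bool => if ∀ i ∈ Z, z i = true then (1 : ℝ) else 0) =
      (1 / 2) ^ Z.card := by
  have h1 := Ex_indep (I := I) (w := ber (1 / 2)) ber_half_sum (fun b => b = true) Z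
    (fun _ => (1 : ℝ)) (by intro i _ ω a; rfl)
  simp only [one_mul] at h1
  have h2 : ∑ a ∈ univ.filter (fun b : Bool => b = true), ber (1 / 2) a = 1 / 2 := by
    rw [Finset.sum_filter, Fintype.sum_bool]
    unfold ber
    norm_num
  rw [h2, Ex_const ber_half_sum, mul_one] at h1
  rw [← h1]

open Classical in
theorem all_prob {N Δ : ℕ} (V : List (List Bool)) (hV : V.Nodup) (hN : ∀ v ∈ V, idx v < N) :
    Ex (ber (1 / 2)) (fun z : Fin N × Fin Δ → Bool => if ∀ v ∈ V, Hz z v then (1 : ℝ) else 0) ≤
      (1 / 2) ^ (Δ * V.length) := by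
  set Z : Finset (Fin N × Fin Δ) := (univ.filter (fun i : Fin N => str i ∈ V)) ×ˢ univ with hZ
  have hcard : Z.card = Δ * V.length := by
    rw [hZ, Finset.card_product, Finset.card_univ, Fintype.card_fin, mul_comm]
    congr 1
    have h1 : (univ.filter (fun i : Fin N => str i ∈ V)).image (fun i : Fin N => str i) =
        V.toFinset := by
      ext v
      simp only [Finset.mem_image, Finset.mem_filter, Finset.mem_univ, true_and,
        List.mem_toFinset]
      constructor
      · rintro ⟨i, hi, rfl⟩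
        exact hi
      · intro hv
        refine ⟨⟨idx v, hN v hv⟩, ?_, ?_⟩
        · simp only [str_idx]
          exact hv
        · simp only [str_idx]
    rw [← List.toFinset_card_of_nodup hV, ← h1, Finset.card_image_of_injective]
    intro i i' h
    exact Fin.ext (str_injective h)
  rw [← hcard, ← Ex_all Z]
  refine Ex_mono ber_half_nonneg fun z => ?_
  by_cases h : ∀ v ∈ V, Hz z v
  · rw [if_pos h, if_pos]
    rintro ⟨i, j⟩ hi
    rw [hZ, Finset.mem_product, Finset.mem_filter] at hi
    obtain ⟨h1, h2⟩ := h _ hi.1.2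
    have h3 := h2 j
    have h4 : (⟨idx (str i), h1⟩ : Fin N) = i := Fin.ext (idx_str i)
    rw [h4] at h3
    exact h3
  · rw [if_neg h]
    split_ifs <;> norm_num

open Classical in
theorem ext_prob {N Δ s : ℕ} (nx : List (List Bool) → List (List Bool))
    (hs : ∀ V, (nx V).length ≤ s) (hN : ∀ V, ∀ v ∈ nx V, idx v < N) :
    ∀ (k : ℕ) (V : List (List Bool)), V.Nodup → (∀ v ∈ V, idx v < N) →
      Ex (ber (1 / 2)) (fun z : Fin N × Fin Δ → Bool =>
        if (∀ v ∈ V, Hz z v) ∧ Ext (Hz z) nx k V then (1 : ℝ) else 0) ≤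
      s ^ k * (1 / 2) ^ (Δ * (k + V.length)) := by
  intro k
  induction k with
  | zero =>
    intro V hV hVN
    rw [pow_zero, one_mul, Nat.zero_add]
    refine le_trans (le_of_eq ?_) (all_prob V hV hVN)
    congr 1
    funext z
    exact if_congr (by simp [Ext]) rfl rfl
  | succ k ih =>
    intro V hV hVN
    set W : Finset (List Bool) := (nx V).toFinset.filter (fun v => v ∉ V) with hW
    have h1 : Ex (ber (1 / 2)) (fun z : Fin N × Fin Δ → Bool =>
        if (∀ v ∈ V, Hz z v) ∧ Ext (Hz z) nx (k + 1) V then (1 : ℝ) else 0) ≤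
        Ex (ber (1 / 2)) (fun z : Fin N × Fin Δ → Bool => ∑ v ∈ W,
          if (∀ v' ∈ v :: V, Hz z v') ∧ Ext (Hz z) nx k (v :: V) then (1 : ℝ) else 0) := by
      refine Ex_mono ber_half_nonneg fun z => ?_
      have hnn : ∀ v ∈ W, (0 : ℝ) ≤
          if (∀ v' ∈ v :: V, Hz z v') ∧ Ext (Hz z) nx k (v :: V) then (1 : ℝ) else 0 := by
        intro v _
        split_ifs <;> norm_num
      by_cases h : (∀ v ∈ V, Hz z v) ∧ Ext (Hz z) nx (k + 1) V
      · rw [if_pos h]
        obtain ⟨h2, v, hv1, hv2, hv3, hv4⟩ := h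
        have hvW : v ∈ W := by
          rw [hW, Finset.mem_filter, List.mem_toFinset]
          exact ⟨hv1, hv3⟩
        refine le_trans ?_ (Finset.single_le_sum hnn hvW)
        rw [if_pos]
        refine ⟨?_, hv4⟩
        intro v' hv'
        rcases List.mem_cons.1 hv' with rfl | hv'
        · exact hv2
        · exact h2 v' hv'
      · rw [if_neg h]
        exact Finset.sum_nonneg hnn
    refine h1.trans ?_
    rw [Ex_sum]
    have h2 : ∀ v ∈ W, Ex (ber (1 / 2)) (fun z : Fin N × Fin Δ → Bool =>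
        if (∀ v' ∈ v :: V, Hz z v') ∧ Ext (Hz z) nx k (v :: V) then (1 : ℝ) else 0) ≤
        s ^ k * (1 / 2) ^ (Δ * (k + 1 + V.length)) := by
      intro v hv
      rw [hW, Finset.mem_filter, List.mem_toFinset] at hv
      have h3 := ih (v :: V) (List.nodup_cons.2 ⟨hv.2, hV⟩) (by
        intro v' hv'
        rcases List.mem_cons.1 hv' with rfl | hv'
        · exact hN V _ hv.1
        · exact hVN v' hv')
      rw [List.length_cons, show k + (V.length + 1) = k + 1 + V.length by ring] at h3
      exact h3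
    refine (Finset.sum_le_sum h2).trans ?_
    rw [Finset.sum_const, nsmul_eq_mul, pow_succ]
    have h3 : (W.card : ℝ) ≤ s := by
      have : W.card ≤ s := (Finset.card_filter_le _ _).trans ((List.toFinset_card_le _).trans (hs V))
      exact_mod_cast this
    calc (W.card : ℝ) * (s ^ k * (1 / 2) ^ (Δ * (k + 1 + V.length)))
        ≤ s * (s ^ k * (1 / 2) ^ (Δ * (k + 1 + V.length))) :=
          mul_le_mul_of_nonneg_right h3 (by positivity)
      _ = s ^ k * s * (1 / 2) ^ (Δ * (k + 1 + V.length)) := by ring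

theorem Ext_mono {H H' : List Bool → Prop} {nx : List (List Bool) → List (List Bool)}
    (h : ∀ q, H q → H' q) : ∀ (k : ℕ) (V : List (List Bool)), Ext H nx k V → Ext H' nx k V := by
  intro k
  induction k with
  | zero => intro V _; trivial
  | succ k ih =>
    rintro V ⟨v, h1, h2, h3, h4⟩
    exact ⟨v, h1, h v h2, h3, ih _ h4⟩

/-! ### The path depends on the short strings only -/

theorem askL_congr (M : Alg) (A A' : Oracle) (x : List Bool) : ∀ (n : ℕ) (a : List Bool),
    (∀ q ∈ askL M A x n a, A' q = A q) → askL M A' x n a = askL M A x n a := by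
  intro n
  induction n with
  | zero => intro a _; rfl
  | succ n ih =>
    intro a h
    rcases hD : M.D (pairBits x a) with _ | ⟨b, q⟩
    · simp only [askL, hD]
    · cases b with
      | true => simp only [askL, hD]
      | false =>
        simp only [askL, hD] at h ⊢
        rw [h q (by simp), ih _ fun q' hq' => h q' (List.mem_cons_of_mem _ hq')]

open Classical in
theorem best_congr {C C' : ℕ → ℕ → Prop} {ρ ρ' : ℕ → ℕ} {x : ℕ}
    (h : ∀ z ≤ x, (C x z ↔ C' x z)) (hρ : ∀ z ≤ x, ρ z = ρ' z) :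
    best C ρ x = best C' ρ' x := by
  have h1 : (fun y => y ≤ x ∧ C x y ∧ ∀ z ≤ x, C x z → ρ z ≤ ρ y) =
      fun y => y ≤ x ∧ C' x y ∧ ∀ z ≤ x, C' x z → ρ' z ≤ ρ' y := by
    funext y
    apply propext
    refine and_congr_right fun hy => ?_
    rw [h y hy, hρ y hy]
    exact and_congr_right fun _ => forall_congr' fun z => forall_congr' fun hz => by
      rw [h z hz, hρ z hz]
  have h2 : ∀ (p p' : ℕ → Prop) (d : Decidable (∃ y, p y)) (d' : Decidable (∃ y, p' y)),
      p = p' → @dite ℕ (∃ y, p y) d (fun h => h.choose) (fun _ => 0) =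
        @dite ℕ (∃ y, p' y) d' (fun h => h.choose) (fun _ => 0) := by
    rintro p _ d d' rfl
    congr
  unfold best
  exact h2 _ _ _ _ h1

theorem NX_congr {A A' : Oracle} {e x : ℕ}
    (h : ∀ q : List Bool, q.length ≤ (Pb e).eval x.bits.length → A q = A' q) :
    NX A e x = NX A' e x := by
  have h0 : ∀ z ≤ x, ∀ q ∈ Tq (tt e) A x z, A' q = A q := fun z hz q hq =>
    (h q ((Pb_bd e).short _ x z hz q hq)).symm
  have h1 : ∀ z ≤ x, Tq (tt e) A x z = Tq (tt e) A' x z := by
    intro z hz
    unfold Tq asked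
    rw [askL_congr (tt e).M A A' _ _ _ fun q hq => h0 z hz q (List.mem_append_left _ hq),
      askL_congr (tt e).N A A' _ _ _ fun q hq => h0 z hz q (List.mem_append_right _ hq)]
  funext V
  unfold NX
  have h3 : mV (Tq (tt e) A x) ((tt e).C A x) ((tt e).rho A) x V =
      mV (Tq (tt e) A' x) ((tt e).C A' x) ((tt e).rho A') x V := by
    unfold mV
    apply best_congr
    · intro z hz
      rw [← h1 z hz, C_eq (h0 z hz)]
    · intro z hz
      exact (rho_eq (h0 z hz)).symm
  rw [h3]
  exact h1 _ (best_le _ _ _)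

theorem NX_mem {A : Oracle} {e x : ℕ} {V : List (List Bool)} :
    (NX A e x V).length ≤ (Pb e).eval x.bits.length ∧
    ∀ v ∈ NX A e x V, v.length ≤ (Pb e).eval x.bits.length := by
  have h1 : mV (Tq (tt e) A x) ((tt e).C A x) ((tt e).rho A) x V ≤ x := best_le _ _ _
  exact ⟨(Pb_bd e).few A x _ h1, (Pb_bd e).short A x _ h1⟩

theorem HF_iff {W : World} {e x : ℕ} {q : List Bool} : HF W e x q ↔
    q.length ≤ (Pb e).eval x.bits.length ∧ q.headD false = true ∧
      W.hid (lev e x) q = true := by
  unfold HF hdF hp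
  simp only [Bool.and_eq_true, decide_eq_true_eq]

theorem size_two_pow (P q : ℕ) (hP : 1 ≤ P) :
    q * Nat.size P + 1 ≤ Nat.size ((2 * P) ^ q) := by
  have h1 : 2 ^ (Nat.size P - 1) ≤ P := by
    apply Nat.lt_size.1
    have := Nat.size_pos.2 hP
    omega
  have h2 := Nat.size_pos.2 hP
  apply Nat.succ_le_of_lt
  apply Nat.lt_size.2
  calc 2 ^ (q * Nat.size P) = (2 * 2 ^ (Nat.size P - 1)) ^ q := by
        rw [← pow_succ', ← pow_mul, mul_comm]
        congr 2
        omega
    _ ≤ (2 * P) ^ q := Nat.pow_le_pow_left (Nat.mul_le_mul_left 2 h1) q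

open Classical in
/-- Long paths of hidden strings are rare. -/
theorem path_prob (e x k : ℕ) :
    ranO {O | Ext (HF (wld O) e x) (NX (AO O) e x) k []} ≤
      ENNReal.ofReal ((1 / 2) ^ (2 * (tt e).c * Nat.size ((Pb e).eval x.bits.length) * k)) := by
  set P := (Pb e).eval x.bits.length with hP
  have hP1 : 1 ≤ P := by
    have := (Pb_bd e).self x.bits.length
    omega
  set Q := (2 * P) ^ (2 * (tt e).c + 2) with hQ
  have hlev : lev e x = Q := rfl
  set Δ := Nat.size Q - Nat.size P with hΔ
  set N := 2 ^ (P + 1) with hN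
  have hPQ : P ≤ Q := by
    have : 2 * P ≤ (2 * P) ^ (2 * (tt e).c + 2) := Nat.le_self_pow (by omega) _
    omega
  have hsz : Nat.size P ≤ Nat.size Q := Nat.size_le_size hPQ
  have hszle := size_le_self Q
  refine resample (J := Fin N × Fin Δ) _ (Q + 3 * P + 4) ?_
    (fun p => hc (str p.1) (Nat.size P + p.2)) ?_ ?_ _ ?_
  · -- locality
    intro O O' h hE
    have h1 : NX (AO O) e x = NX (AO O') e x := by
      apply NX_congr
      intro q hq
      exact AO_loc (L := P) (fun q hq => h q (by omega)) hq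
    rw [← h1]
    refine Ext_mono ?_ k [] hE
    intro q hq
    rw [HF_iff] at hq ⊢
    refine ⟨hq.1, hq.2.1, ?_⟩
    have h2 := hq.2.2
    rw [hlev] at h2 ⊢
    simp only [wld, decide_eq_true_eq] at h2 ⊢
    intro j hj
    rw [← h _ (by rw [length_hc]; have := hq.1; omega)]
    exact h2 j hj
  · -- injectivity
    rintro ⟨i, j⟩ ⟨i', j'⟩ h
    obtain ⟨h1, h2⟩ := hc_inj h
    have h3 : i = i' := Fin.ext (str_injective h1)
    have h5 : Nat.size P + (j : ℕ) = Nat.size P + (j' : ℕ) := h2
    have h4 : j = j' := Fin.ext (by omega)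
    rw [h3, h4]
  · -- lengths
    rintro ⟨i, j⟩
    have h1 : (str i).length ≤ P + 1 := by
      rw [length_str]
      have h2 : (i : ℕ) + 1 < 2 ^ (P + 2) := by
        have := i.isLt
        have h3 : N < 2 ^ (P + 2) := Nat.pow_lt_pow_right (by norm_num) (by omega)
        omega
      have := Nat.log_lt_of_lt_pow (by omega) h2
      omega
    have hj := j.isLt
    show (hc (str i) (Nat.size P + j)).length ≤ _
    rw [length_hc]
    omega
  · -- the bound
    intro O
    have hle : ∀ z : Fin N × Fin Δ → Bool,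
        (if Ext (HF (wld (Proj.owr (fun p : Fin N × Fin Δ => hc (str p.1) (Nat.size P + p.2)) O z))
          e x) (NX (AO (Proj.owr (fun p : Fin N × Fin Δ => hc (str p.1) (Nat.size P + p.2)) O z))
            e x) k [] then (1 : ℝ) else 0) ≤
        if (∀ v ∈ ([] : List (List Bool)), Hz z v) ∧ Ext (Hz z) (NX (AO O) e x) k [] then (1 : ℝ)
          else 0 := by
      intro z
      set O' := Proj.owr (fun p : Fin N × Fin Δ => hc (str p.1) (Nat.size P + p.2)) O z with hO'
      by_cases hE : Ext (HF (wld O') e x) (NX (AO O') e x) k []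
      · rw [if_pos hE, if_pos]
        refine ⟨by simp, ?_⟩
        have h1 : NX (AO O) e x = NX (AO O') e x := by
          apply NX_congr
          intro q hq
          refine AO_low (L := P) ?_ ?_ hq
          · intro a j
            rw [hO', Proj.owr_off]
            rintro ⟨p, hp⟩
            exact yc_ne_hc _ _ _ _ hp.symm
          · intro v j hj
            rw [hO', Proj.owr_off]
            rintro ⟨p, hp⟩
            have := (hc_inj hp).2
            omega
        rw [h1]
        refine Ext_mono ?_ k [] hE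
        intro q hq
        rw [HF_iff] at hq
        obtain ⟨h2, -, h3⟩ := hq
        refine ⟨idx_lt_pow h2, fun j => ?_⟩
        rw [hlev] at h3
        simp only [wld, decide_eq_true_eq] at h3
        have h4 := h3 (Nat.size P + j) (by have := j.isLt; omega)
        have h5 : hc q (Nat.size P + j) =
            (fun p : Fin N × Fin Δ => hc (str p.1) (Nat.size P + p.2)) (⟨idx q, idx_lt_pow h2⟩, j) := by
          simp only [str_idx]
        rw [hO', h5, Proj.owr_e] at h4
        · exact h4
        · rintro ⟨i, j⟩ ⟨i', j'⟩ h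
          obtain ⟨h1, h2⟩ := hc_inj h
          have h3 : i = i' := Fin.ext (str_injective h1)
          have h5 : Nat.size P + (j : ℕ) = Nat.size P + (j' : ℕ) := h2
          have h4 : j = j' := Fin.ext (by omega)
          rw [h3, h4]
      · rw [if_neg hE]
        split_ifs <;> norm_num
    refine (Ex_mono ber_half_nonneg hle).trans ?_
    refine (ext_prob (N := N) (Δ := Δ) (s := P) (NX (AO O) e x) (fun V => NX_mem.1)
      (fun V v hv => idx_lt_pow (NX_mem.2 v hv)) k [] List.nodup_nil (by simp)).trans ?_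
    rw [List.length_nil, Nat.add_zero, pow_mul, ← mul_pow, pow_mul _ _ k]
    apply pow_le_pow_left₀ (by positivity)
    have h1 := size_two_pow P (2 * (tt e).c + 2) hP1
    rw [← hQ] at h1
    have h1' : (2 * (tt e).c + 2) * Nat.size P = 2 * (tt e).c * Nat.size P + 2 * Nat.size P := by
      ring
    have h2 : (P : ℝ) ≤ 2 ^ Nat.size P := by exact_mod_cast (Nat.lt_size_self P).le
    have h3 : ((1 : ℝ) / 2) ^ Δ ≤ (1 / 2) ^ (2 * (tt e).c * Nat.size P + Nat.size P) :=
      pow_le_pow_of_le_one (by norm_num) (by norm_num) (by omega)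
    calc (P : ℝ) * (1 / 2) ^ Δ ≤
        2 ^ Nat.size P * (1 / 2) ^ (2 * (tt e).c * Nat.size P + Nat.size P) := by
          gcongr
      _ = (2 * (1 / 2)) ^ Nat.size P * (1 / 2) ^ (2 * (tt e).c * Nat.size P) := by
          rw [mul_pow, pow_add]; ring
      _ = (1 / 2) ^ (2 * (tt e).c * Nat.size P) := by norm_num

theorem Qn_num {c P n : ℕ} (hc : 1 ≤ c) (hn : n + 1 ≤ P) (K : ℕ) :
    2 * n + K ≤ 2 * c * Nat.size P * Qn c K n := by
  have h1 : 1 ≤ Nat.size P := Nat.size_pos.2 (by omega)
  have h2 : Nat.size n ≤ Nat.size P := Nat.size_le_size (by omega)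
  unfold Qn
  have h3 : 2 * n ≤ 2 * c * Nat.size P * (n / (c * Nat.size n) + 1) := by
    rcases Nat.eq_zero_or_pos n with h0 | h0
    · subst h0
      simp
    · have h4 : 1 ≤ Nat.size n := Nat.size_pos.2 h0
      have h5 : n < c * Nat.size n * (n / (c * Nat.size n) + 1) :=
        Nat.lt_mul_div_succ n (Nat.mul_pos (by omega) (by omega))
      have h6 : c * Nat.size n * (n / (c * Nat.size n) + 1) ≤
          c * Nat.size P * (n / (c * Nat.size n) + 1) :=
        Nat.mul_le_mul_right _ (Nat.mul_le_mul_left _ h2)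
      calc 2 * n ≤ 2 * (c * Nat.size P * (n / (c * Nat.size n) + 1)) := by omega
        _ = _ := by ring
  have h4 : K ≤ 2 * c * Nat.size P * K := by
    apply Nat.le_mul_of_pos_left
    exact Nat.mul_pos (by omega) (by omega)
  calc 2 * n + K ≤ 2 * c * Nat.size P * (n / (c * Nat.size n) + 1) + 2 * c * Nat.size P * K := by
        omega
    _ = _ := by ring

/-- Almost surely there are no long paths. -/
theorem ae_path (e : ℕ) (he : 1 ≤ (tt e).c) : ∀ᵐ O ∂ranO, ∃ K : ℕ, ∀ x : ℕ,
    ¬ Ext (HF (wld O) e x) (NX (AO O) e x) (Qn (tt e).c K x.bits.length) [] := by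
  rw [ae_iff]
  set c : ENNReal := ∑' x : ℕ, ENNReal.ofReal (1 / ((x : ℝ) + 1) ^ 2) with hc
  have hcfin : c ≠ ⊤ := by
    have hs : Summable (fun x : ℕ => 1 / ((x : ℝ) + 1) ^ 2) := by
      have h1 := (summable_nat_add_iff 1).2
        (Real.summable_one_div_nat_pow.2 (by norm_num : 1 < 2))
      refine h1.congr fun x => ?_
      push_cast
      rfl
    exact hs.tsum_ofReal_ne_top
  have hb : ∀ K : ℕ, ranO {O | ¬ ∃ K : ℕ, ∀ x : ℕ,
      ¬ Ext (HF (wld O) e x) (NX (AO O) e x) (Qn (tt e).c K x.bits.length) []} ≤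
      ENNReal.ofReal ((1 / 2) ^ K) * c := by
    intro K
    have hsub : {O | ¬ ∃ K : ℕ, ∀ x : ℕ,
        ¬ Ext (HF (wld O) e x) (NX (AO O) e x) (Qn (tt e).c K x.bits.length) []} ⊆
        ⋃ x : ℕ, {O | Ext (HF (wld O) e x) (NX (AO O) e x) (Qn (tt e).c K x.bits.length) []} := by
      intro O hO
      simp only [Set.mem_ofPred_eq, not_exists, not_forall, not_not] at hO
      obtain ⟨x, hx⟩ := hO K
      exact Set.mem_iUnion.2 ⟨x, hx⟩
    refine (measure_mono hsub).trans ((measure_iUnion_le _).trans ?_)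
    rw [hc, ← ENNReal.tsum_mul_left]
    refine ENNReal.tsum_le_tsum fun x => ?_
    refine (path_prob e x _).trans ?_
    rw [← ENNReal.ofReal_mul (by positivity)]
    apply ENNReal.ofReal_le_ofReal
    have hexp := Qn_num he ((Pb_bd e).self x.bits.length) K
    refine (pow_le_pow_of_le_one (by norm_num) (by norm_num) hexp).trans ?_
    rw [pow_add, mul_comm]
    apply mul_le_mul_of_nonneg_left _ (by positivity)
    have h1 : (x : ℝ) + 1 ≤ 2 ^ x.bits.length := by
      rw [Nat.size_eq_bits_len]
      exact_mod_cast Nat.lt_size_self x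
    rw [mul_comm, pow_mul, one_div_pow, one_div_pow]
    apply one_div_le_one_div_of_le (by positivity)
    exact pow_le_pow_left₀ (by positivity) h1 2
  have hlim : Tendsto (fun K : ℕ => ENNReal.ofReal ((1 / 2) ^ K) * c) atTop (nhds 0) := by
    have h1 : Tendsto (fun K : ℕ => ENNReal.ofReal ((1 / 2) ^ K)) atTop (nhds 0) := by
      rw [← ENNReal.ofReal_zero]
      exact ENNReal.tendsto_ofReal
        (tendsto_pow_atTop_nhds_zero_of_lt_one (by norm_num) (by norm_num))
    have h2 := ENNReal.Tendsto.mul_const h1 (Or.inr hcfin)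
    rwa [zero_mul] at h2
  exact le_antisymm (ge_of_tendsto hlim (Eventually.of_forall hb)) bot_le

end Pool.Agent.V8H38.OC
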