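import Pool.Agent.V8H38.OC.Game

/-!
# Worlds and their oracles
-/

set_option autoImplicit false

namespace Pool.Agent.V8H38.OC

open Pool.Agent.NPC Pool.Agent.H620R2.Gauge Pool.Agent.V8H57.CX Pool.Agent.V8H57.RX

/-- A world: the values of the oracle at the positions (the strings with first bit `true`), and for
every level the set of hidden strings. -/
structure World : Type where
  /-- the values at the positions -/
  pos : Oracle
  /-- the hidden strings -/
  hid : ℕ → Oracle

/-- the oracle with the positions of `W` and the other part `K` -/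
def full (W : World) (K : Oracle) : Oracle
  | [] => false
  | false :: w => K w
  | true :: v => W.pos (true :: v)

/-- the hidden positions -/
def hp (W : World) (ℓ : ℕ) (q : List Bool) : Bool := q.headD false && W.hid ℓ q

/-- the hidden positions of length at most `P` -/
def hdF (W : World) (P ℓ : ℕ) : Oracle := fun q => decide (q.length ≤ P) && hp W ℓ q

/-- the visible part of the oracle, for strings of length at most `P` -/
def visO (W : World) (K : Oracle) (P ℓ : ℕ) : Oracle := fun q =>
  decide (q.length ≤ P) && (!(hp W ℓ q) && full W K q)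

/-! ### The enumeration of the tasks -/

instance : Countable Tk := by
  let F : Tk → Alg × Alg × ℕ := fun t => (t.M, t.N, t.c)
  have hF : Function.Injective F := by
    rintro ⟨M, N, c⟩ ⟨M', N', c'⟩ h
    simp only [F, Prod.mk.injEq] at h
    obtain ⟨rfl, rfl, rfl⟩ := h
    rfl
  exact hF.countable

instance : Nonempty Tk :=
  ⟨⟨⟨_, CC.const_polyTime [], 0⟩, ⟨_, CC.const_polyTime [], 0⟩, 0⟩⟩

theorem exists_tks : ∃ g : ℕ → Tk, Function.Surjective g := exists_surjective_nat _

/-- an enumeration of the tasks -/
noncomputable def tt : ℕ → Tk := exists_tks.choose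

theorem tt_surj : Function.Surjective tt := exists_tks.choose_spec

/-- the bounds for a task -/
structure Bdd (t : Tk) (P : Polynomial ℕ) : Prop where
  self : ∀ n, n + 1 ≤ P.eval n
  few : ∀ (A : Oracle) (x z : ℕ), z ≤ x → (Tq t A x z).length ≤ P.eval x.bits.length
  short : ∀ (A : Oracle) (x z : ℕ), z ≤ x → ∀ q ∈ Tq t A x z, q.length ≤ P.eval x.bits.length

theorem exists_bdd (t : Tk) : ∃ P : Polynomial ℕ, Bdd t P := by
  obtain ⟨b, hb⟩ := asked_short t.M
  obtain ⟨b', hb'⟩ := asked_short t.N
  set T : Polynomial ℕ := Polynomial.C 3 * Polynomial.X + Polynomial.C 1 with hT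
  have hTv : ∀ x z : ℕ, z ≤ x → (pairBits x.bits z.bits).length ≤ T.eval x.bits.length := by
    intro x z h
    have := length_bits_mono h
    rw [length_pairBits, hT]
    simp only [Polynomial.eval_add, Polynomial.eval_mul, Polynomial.eval_C, Polynomial.eval_X]
    omega
  refine ⟨Polynomial.X + 1 + (t.M.p.comp T + b.comp T) + (t.N.p + b'), ?_, ?_, ?_⟩
  · intro n
    simp only [Polynomial.eval_add, Polynomial.eval_X, Polynomial.eval_one]
    omega
  · intro A x z hz
    have h1 := (asked_length t.M A (pairBits x.bits z.bits)).trans
      (eval_mono t.M.p (hTv x z hz))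
    have h2 := (asked_length t.N A z.bits).trans (eval_mono t.N.p (length_bits_mono hz))
    unfold Tq
    rw [List.length_append]
    simp only [Polynomial.eval_add, Polynomial.eval_comp]
    omega
  · intro A x z hz q hq
    simp only [Polynomial.eval_add, Polynomial.eval_comp]
    rcases List.mem_append.1 hq with hq | hq
    · have h1 := (hb A _ q hq).trans (eval_mono b (hTv x z hz))
      omega
    · have h1 := (hb' A _ q hq).trans (eval_mono b' (length_bits_mono hz))
      omega

/-- the bounds -/
noncomputable def Pb (e : ℕ) : Polynomial ℕ := (exists_bdd (tt e)).choose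

theorem Pb_bd (e : ℕ) : Bdd (tt e) (Pb e) := (exists_bdd (tt e)).choose_spec

/-- the length of the blocks -/
noncomputable def nbb (e : ℕ) : Polynomial ℕ := Polynomial.C 2 * Pb e + Polynomial.C 3

theorem nbb_eval (e n : ℕ) : (nbb e).eval n = 2 * (Pb e).eval n + 3 := by
  unfold nbb
  simp only [Polynomial.eval_add, Polynomial.eval_mul, Polynomial.eval_C]

/-- the level for the task `e` and the input `x` -/
noncomputable def lev (e x : ℕ) : ℕ := (2 * (Pb e).eval x.bits.length) ^ (2 * (tt e).c + 2)

/-- the bounds for the code strings -/
noncomputable def Rp (e : ℕ) : Polynomial ℕ := (Polynomial.C 2 * Pb e) ^ (2 * (tt e).c + 2)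

theorem Rp_eval (e n : ℕ) : (Rp e).eval n = (2 * (Pb e).eval n) ^ (2 * (tt e).c + 2) := by
  unfold Rp
  simp only [Polynomial.eval_mul, Polynomial.eval_C, Polynomial.eval_pow]

/-- the strategy in the world `W` -/
noncomputable def actW (W : World) (e : ℕ) (K : Oracle) (x : ℕ) : List (List Bool) → List Bool :=
  actH (tt e) (visO W K ((Pb e).eval x.bits.length) (lev e x))
    (hdF W ((Pb e).eval x.bits.length) (lev e x)) x

/-- the question answered by the code strings -/
def Vw (W : World) (e : ℕ) (K : Oracle) (z : List Bool) : Prop :=
  (actW W e K (num (unpair z).1)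
    (sc ((nbb e).eval (num (unpair z).1).bits.length) (chron (unpair z).2)).2).getD
    (sc ((nbb e).eval (num (unpair z).1).bits.length) (chron (unpair z).2)).1.length false = true

/-- the part of the oracle which helps the student -/
noncomputable def KW (W : World) : Oracle := CC.Phi Rp (Vw W) (fun _ => false)

/-- the oracle of the world `W` -/
noncomputable def orW (W : World) : Oracle := full W (KW W)

theorem visO_congr {W : World} {K K' : Oracle} {P ℓ n : ℕ} (hP : P ≤ n)
    (h : ∀ w : List Bool, w.length < n → K w = K' w) : visO W K P ℓ = visO W K' P ℓ := by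
  funext q
  unfold visO
  by_cases hq : q.length ≤ P
  · rcases q with _ | ⟨b, w⟩
    · rfl
    · cases b with
      | true => rfl
      | false =>
        simp only [full]
        rw [h w (by rw [List.length_cons] at hq; omega)]
  · simp [hq]

theorem bd_lt (e : ℕ) (z : List Bool) :
    (Pb e).eval (num (unpair z).1).bits.length < (code Rp e z).length ∧
    lev e (num (unpair z).1) < (code Rp e z).length := by
  have h1 := CC.lt_length_code Rp e z
  rw [Rp_eval] at h1
  have h2 : (num (unpair z).1).bits.length ≤ z.length := by
    refine (length_bits_num _).trans ?_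
    have := unpair_len z
    omega
  have h3 := eval_mono (Pb e) h2
  have h4 := (Pb_bd e).self z.length
  have h5 : 2 * (Pb e).eval z.length ≤ (2 * (Pb e).eval z.length) ^ (2 * (tt e).c + 2) :=
    Nat.le_self_pow (by omega) _
  unfold lev
  constructor
  · omega
  · refine lt_of_le_of_lt ?_ h1
    exact Nat.pow_le_pow_left (by omega) _

theorem KW_code (W : World) (e : ℕ) (z : List Bool) :
    KW W (code Rp e z) = true ↔ Vw W e (KW W) z := by
  unfold KW
  refine CC.Phi_code Rp (Vw W) _ ?_ e z
  intro e A A' z h
  have h1 : visO W A ((Pb e).eval (num (unpair z).1).bits.length) (lev e (num (unpair z).1)) =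
      visO W A' ((Pb e).eval (num (unpair z).1).bits.length) (lev e (num (unpair z).1)) :=
    visO_congr (bd_lt e z).1.le h
  unfold Vw actW
  rw [h1]

/-- The helping part of the oracle depends on the visible positions only. -/
theorem KW_congr {W W' : World} {L : ℕ}
    (hh : ∀ ℓ ≤ L, ∀ q : List Bool, q.length ≤ L → W.hid ℓ q = W'.hid ℓ q)
    (hn : ∀ ℓ ≤ L, ∀ q : List Bool, W.hid L q = true → W.hid ℓ q = true)
    (hpos : ∀ q : List Bool, q.length ≤ L → W.hid L q = false → W.pos q = W'.pos q) :
    ∀ w : List Bool, w.length ≤ L → KW W w = KW W' w := by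
  intro w
  induction hw : w.length using Nat.strong_induction_on generalizing w with
  | _ n ih =>
    intro hL
    subst hw
    by_cases hc : ∃ p : ℕ × List Bool, w = code Rp p.1 p.2
    · obtain ⟨⟨e, z⟩, hc⟩ := hc
      simp only at hc
      subst hc
      rw [Bool.eq_iff_iff, KW_code, KW_code]
      obtain ⟨b1, b2⟩ := bd_lt e z
      set P := (Pb e).eval (num (unpair z).1).bits.length with hP
      set ℓ := lev e (num (unpair z).1) with hℓ
      have hpq : ∀ q : List Bool, q.length ≤ P → hp W ℓ q = hp W' ℓ q := by
        intro q hq
        unfold hp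
        rw [hh ℓ (by omega) q (by omega)]
      have h1 : hdF W P ℓ = hdF W' P ℓ := by
        funext q
        unfold hdF
        by_cases hq : q.length ≤ P
        · rw [hpq q hq]
        · simp [hq]
      have h2 : visO W (KW W) P ℓ = visO W' (KW W') P ℓ := by
        funext q
        unfold visO
        by_cases hq : q.length ≤ P
        · rw [← hpq q hq]
          cases hhq : hp W ℓ q with
          | true => simp
          | false =>
            have hfull : full W (KW W) q = full W' (KW W') q := by
              rcases q with _ | ⟨b, v⟩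
              · simp only [full]
              · cases b with
                | false =>
                  rw [List.length_cons] at hq
                  simp only [full]
                  exact ih v.length (by omega) v rfl (by omega)
                | true =>
                  simp only [full]
                  apply hpos _ (by omega)
                  by_contra hcon
                  have h3 := hn ℓ (by omega) (true :: v) (by simpa using hcon)
                  unfold hp at hhq
                  simp [h3] at hhq
            rw [hfull]
        · simp [hq]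
      unfold Vw actW
      rw [← hP, ← hℓ, h1, h2]
    · push Not at hc
      unfold KW
      rw [CC.Phi_not _ _ _ _ (fun e x => hc (e, x)), CC.Phi_not _ _ _ _ (fun e x => hc (e, x))]

/-! ### The oracle set of the student -/

/-- the oracle set of the student -/
def SW (W : World) : Set (List Bool) :=
  {q | (∃ w, q = false :: w ∧ KW W w = true) ∨ ∃ v, q = true :: v ∧ orW W (unpair v).1 = true}

theorem SW_false (W : World) (w : List Bool) : false :: w ∈ SW W ↔ KW W w = true := by
  unfold SW
  simp

theorem SW_true (W : World) (v : List Bool) :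
    true :: v ∈ SW W ↔ orW W (unpair v).1 = true := by
  unfold SW
  simp

/-- the questions for the oracle set -/
def trq (q : List Bool) : List Bool :=
  match q with
  | [] => []
  | false :: w => false :: w
  | true :: v => (unpair v).1

theorem inSigma_SW (W : World) : InSigma (orW W) 0 (SW W) := by
  have hQ : Poly (fun q : List Bool => [trq q]) := by
    refine Poly.cons ?_ (NPC.Poly.const [])
    have h1 : Poly (fun p : List Bool × Bool × List Bool => if p.2.1 then (unpair p.2.2).1 else
        false :: p.2.2) := by
      refine Poly.ite (Poly.decide_eq (Poly.fst (Poly.snd Poly.id)) (NPC.Poly.const true)) ?_ ?_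
      · exact Poly.fst (poly_unpair.comp (Poly.snd (Poly.snd Poly.id)))
      · exact Poly.cons (NPC.Poly.const false) (Poly.snd (Poly.snd Poly.id))
    refine (Poly.listCases (l := fun q : List Bool => q) (g := fun _ => ([] : List Bool))
      (h := fun _ b v => if b then (unpair v).1 else false :: v) Poly.id (NPC.Poly.const _)
      h1).congr ?_
    intro q
    rcases q with _ | ⟨b, v⟩
    · rfl
    · cases b <;> rfl
  refine ⟨fun q => (([trq q].map (orW W))), 0, IsFP.tt (H := fun p => p.2) hQ
    (Poly.snd Poly.id), fun q => ?_⟩
  show q ∈ SW W ↔ [orW W (trq q)] = [true]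
  rcases q with _ | ⟨b, v⟩
  · unfold SW trq
    simp [orW, full]
  · cases b with
    | false =>
      rw [SW_false]
      simp [trq, orW, full]
    | true =>
      rw [SW_true]
      simp [trq]

theorem pairBits_pad (q : List Bool) (N : ℕ) : (unpair (pad N (pairBits q []))).1 = q := by
  have h : pad N (pairBits q []) =
      pairBits q (List.replicate (N - (pairBits q []).length) false) := by
    unfold pad
    simp [pairBits]
  rw [h, unpair_pairBits]

/-! ### The machine -/

theorem tells (W : World) (e x : ℕ) : Tells (nbb e) Rp e (SW W) x (actW W e (KW W) x) := by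
  intro l
  rw [SW_false, KW_code]
  unfold Vw
  rw [unpair_pairBits]
  simp only [num_bits, chron_tcode]

theorem computes_of_win' {nb : Polynomial ℕ} {R : ℕ → Polynomial ℕ} {e : ℕ} {p : Polynomial ℕ}
    {S : Set (List Bool)} {C : ℕ → ℕ → Prop} {ρ : ℕ → ℕ}
    {act : ℕ → List (List Bool) → List Bool}
    (hT : ∀ x, Tells nb R e S x (act x)) (q : Polynomial ℕ)
    (hp : p = q * (nb + 1))
    (hw : ∀ x, ∃ k ≤ q.eval x.bits.length, ∃ c,
      Win S x C ρ (act x) (nb.eval x.bits.length) k c []) :
    (mach nb R e p).Computes S C ρ := by
  intro x adv hadv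
  obtain ⟨k, hk, c, hw⟩ := hw x
  obtain ⟨⟨y, h1, h2⟩, -⟩ := win_run (p := p) (hT x) hadv k c [] [] hw rfl
  refine ⟨y, ?_, h2⟩
  have h3 : (mach nb R e p).p.eval x.bits.length =
      k * (nb.eval x.bits.length + 1) +
        ((q.eval x.bits.length - k) * (nb.eval x.bits.length + 1)) := by
    show p.eval x.bits.length = _
    rw [hp, Polynomial.eval_mul, Polynomial.eval_add, Polynomial.eval_one, ← Nat.add_mul]
    congr 1
    omega
  rw [h3]
  exact run_mono _ _ _ _ _ _ _ _ h1

/-- the hidden positions for the task `e` and the input `x` -/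
def HF (W : World) (e x : ℕ) (q : List Bool) : Prop :=
  hdF W ((Pb e).eval x.bits.length) (lev e x) q = true

/-- the strings which may follow on a path -/
noncomputable def NX (A : Oracle) (e x : ℕ) (V : List (List Bool)) : List (List Bool) :=
  Tq (tt e) A x (mV (Tq (tt e) A x) ((tt e).C A x) ((tt e).rho A) x V)

theorem gm_of (W : World) (e x : ℕ) :
    Gm (tt e) (visO W (KW W) ((Pb e).eval x.bits.length) (lev e x))
      (hdF W ((Pb e).eval x.bits.length) (lev e x)) (orW W) x ((Pb e).eval x.bits.length) := by
  refine ⟨?_, ?_, ?_, ?_⟩
  · intro q hq hh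
    unfold hdF at hh
    unfold visO
    simp only [hq, decide_true, Bool.true_and] at hh ⊢
    rw [hh]
    rfl
  · intro z hz q hq
    exact (Pb_bd e).short _ x z hz q hq
  · intro z hz
    exact (Pb_bd e).few _ x z hz
  · have := (Pb_bd e).self x.bits.length
    omega

/-- the bound for the number of questions to the adversary -/
def Qn (c K n : ℕ) : ℕ := n / (c * Nat.size n) + 1 + K

theorem Qn_le (c K n : ℕ) : Qn c K n ≤ n + 1 + K := by
  unfold Qn
  have := Nat.div_le_self n (c * Nat.size n)
  omega

/-- If there are no long paths of hidden strings, then the problem is computed. -/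
theorem computes_of_ext (W : World) {e : ℕ} (h0 : ∀ x, (tt e).C (orW W) x 0) {K : ℕ}
    (hK : ∀ x : ℕ, ¬ Ext (HF W e x) (NX (orW W) e x) (Qn (tt e).c K x.bits.length) []) :
    ∃ M : CAlg, M.Computes (SW W) ((tt e).C (orW W)) ((tt e).rho (orW W)) ∧
      ∀ (x : ℕ) (adv : Adversary), adv.Correct ((tt e).C (orW W)) ((tt e).rho (orW W)) x →
        ∀ n, M.asks (SW W) adv x n [] ≤ Qn (tt e).c K x.bits.length := by
  have hwin : ∀ x : ℕ, Win (SW W) x ((tt e).C (orW W)) ((tt e).rho (orW W)) (actW W e (KW W) x)
      ((nbb e).eval x.bits.length) (Qn (tt e).c K x.bits.length *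
        ((Pb e).eval x.bits.length + 1) + 1) (Qn (tt e).c K x.bits.length) [] := by
    intro x
    refine win_start (gm_of W e x) ?_ ?_ (h0 x) (hK x)
    · rw [nbb_eval]
    · intro q
      rw [SW_true, pairBits_pad]
  refine ⟨mach (nbb e) Rp e (((Polynomial.X + Polynomial.C (1 + K)) * (Pb e + 1) + 1) *
    (nbb e + 1)), computes_of_win' (act := fun x => actW W e (KW W) x) (tells W e)
    ((Polynomial.X + Polynomial.C (1 + K)) * (Pb e + 1) + 1) rfl ?_, ?_⟩
  · intro x
    refine ⟨_, ?_, _, hwin x⟩
    simp only [Polynomial.eval_add, Polynomial.eval_mul, Polynomial.eval_X, Polynomial.eval_C,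
      Polynomial.eval_one]
    have h1 := Qn_le (tt e).c K x.bits.length
    have h2 : Qn (tt e).c K x.bits.length ≤ x.bits.length + (1 + K) := by omega
    exact Nat.add_le_add_right (Nat.mul_le_mul_right _ h2) 1
  · intro x adv hadv n
    exact (win_run (tells W e x) hadv _ _ [] [] (hwin x) rfl).2 n

end Pool.Agent.V8H38.OC
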